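import Pool.Agent.H29.T1.ZS
import Pool.Agent.H29.NF.A
import Pool.Agent.H46.NF.L

/-!
# RZT: rank zero in towers over number fields: definitions and statements

`K` is a number field, `E` runs over the Galois extensions of `K` whose degree is a power of two and in
which the primes above `2` split completely.  The definitions of NF (`H14/NF/Base`, `H29/NF/A`) and of
T1T (`AbvV`, `SplV`, `UnrV`, `vP`, `fkE`, `UCP`, `LSDEK`: `H29/T1/TDefs`, `H29/T1/ZS`) are used.
The rows are ports of the rows `Z..` of T1T to the ring `𝓞 K`; no row needs `GR`.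
-/

set_option autoImplicit false

namespace Pool.RZT

open Polynomial Matrix NumberField IsDedekindDomain Pool.HYP Pool.TOW Pool.AVS Pool.T1 Pool.NF

section Defs

variable (K : Type) [Field K] [NumberField K]

/-- The extensions which are considered: Galois over `K`, the degree is a power of two, the primes of
`T` and the primes above `2` split completely, every other prime is unramified or `f` is irreducible
modulo this prime. -/
def Tw (T : Finset (HeightOneSpectrum (𝓞 K))) (f : (𝓞 K)[X]) (E : Type) [Field E] [Algebra K E] :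
    Prop :=
  FiniteDimensional K E ∧ IsGalois K E ∧ (∃ m : ℕ, Module.finrank K E = 2 ^ m) ∧
    (∀ P ∈ T, SplV E (vP K P)) ∧
    (∀ P : HeightOneSpectrum (𝓞 K), (2 : 𝓞 K) ∈ P.asIdeal → SplV E (vP K P)) ∧
    ∀ P : HeightOneSpectrum (𝓞 K), UnrV E (vP K P) ∨ Irreducible (md P.asIdeal f)

/-- The 2-Selmer group is trivial over all these extensions. -/
def TowN (T : Finset (HeightOneSpectrum (𝓞 K))) (f : (𝓞 K)[X]) : Prop :=
  ∀ (E : Type) [Field E] [Algebra K E], Tw K T f E → SelK (fkE K E f)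

/-- The main step. -/
def OneTN (Ram : Finset (HeightOneSpectrum (𝓞 K))) : Prop :=
  ∀ (D : DatN K) (Y : ℕ), D.Ok → 1 ≤ Y → Ram ⊆ D.T' → ∀ f ∈ FamN D Y, Smooth f →
    ¬ Bad K D.T f → ∃ S ⊆ D.T, ∀ d : 𝓞 K, TwiN D.T D.T' S d → TowN K D.T (f.scaleRoots d)

/-- The conclusion for the set `T`. -/
def PosTN (E₀ : Type) [Field E₀] [Algebra K E₀] (T : Finset (HeightOneSpectrum (𝓞 K))) : Prop :=
  ∃ δ : ℝ, 0 < δ ∧ ∃ Y₀ : ℝ, ∀ Y : ℝ, Y₀ ≤ Y → (AllN K Y).Finite ∧ 0 < (AllN K Y).ncard ∧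
    δ * (AllN K Y).ncard ≤
      {f ∈ AllN K Y | Irreducible (fk K f) ∧ SelK (fk K f) ∧ SelK (fkE K E₀ f) ∧
        TowN K T f}.ncard

/-- The conclusion for `a_1 = 0`. -/
def PosTZN (E₀ : Type) [Field E₀] [Algebra K E₀] (T : Finset (HeightOneSpectrum (𝓞 K))) : Prop :=
  ∃ δ : ℝ, 0 < δ ∧ ∃ Y₀ : ℝ, ∀ Y : ℝ, Y₀ ≤ Y →
    0 < {f ∈ AllN K Y | f.coeff 2 = 0}.ncard ∧
    δ * {f ∈ AllN K Y | f.coeff 2 = 0}.ncard ≤
      {f ∈ AllN K Y | f.coeff 2 = 0 ∧ Irreducible (fk K f) ∧ SelK (fk K f) ∧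
        SelK (fkE K E₀ f) ∧ TowN K T f}.ncard

variable {K}

/-- At the completions of `E` above the primes over `2` the class of `p` is the class of a
divisor. -/
def Loc2E (E : Type) [Field E] [Algebra K E] (f : (𝓞 K)[X]) (p : E[X]) : Prop :=
  ∀ (L : Type) [Field L] (O' : ValuationSubring L) (ι : E →+* L) (P : HeightOneSpectrum (𝓞 K)),
    AbvV E (vP K P) L O' ι → (2 : 𝓞 K) ∈ P.asIdeal → LocSol ((fkE K E f).map ι) (p.map ι)

end Defs

/-! ### Places -/

/-- UNCN: at an unramified prime which is not above `2`.  (Port of ZUNC.) -/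
def UNCNStmt : Prop :=
  ∀ (K : Type) [Field K] [NumberField K] (P : HeightOneSpectrum (𝓞 K)) (ϖ : 𝓞 K),
    (2 : 𝓞 K) ∉ P.asIdeal → ϖ ∈ P.asIdeal → ϖ ∉ P.asIdeal ^ 2 →
    ∀ (E : Type) [Field E] [Algebra K E] (L : Type) [Field L] (O' : ValuationSubring L)
    (ι : E →+* L), AbvV E (vP K P) L O' ι → UnrV E (vP K P) →
    UCP P ϖ L O' (ι.comp (algebraMap K E))

/-- SPCN: at a prime which splits completely and is not above `2`.  (Port of ZSPC.) -/
def SPCNStmt : Prop :=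
  ∀ (K : Type) [Field K] [NumberField K] (P : HeightOneSpectrum (𝓞 K)) (ϖ : 𝓞 K),
    (2 : 𝓞 K) ∉ P.asIdeal → ϖ ∈ P.asIdeal → ϖ ∉ P.asIdeal ^ 2 →
    ∀ (E : Type) [Field E] [Algebra K E] (L : Type) [Field L] (O' : ValuationSubring L)
    (ι : E →+* L), AbvV E (vP K P) L O' ι → SplV E (vP K P) →
    CompP P ϖ L O' (ι.comp (algebraMap K E))

/-- SPC2: at a prime which splits completely the completion is that of `K`; and the primes
above `2`. -/
def SPC2Stmt : Prop :=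
  ∀ (K : Type) [Field K] [NumberField K] (P : HeightOneSpectrum (𝓞 K)) (E : Type) [Field E]
    [Algebra K E] (L : Type) [Field L] (O' : ValuationSubring L) (ι : E →+* L),
    AbvV E (vP K P) L O' ι →
    (SplV E (vP K P) → Cpl K L O' (ι.comp (algebraMap K E))) ∧
    ((2 : 𝓞 K) ∈ P.asIdeal ↔ (2 : L)⁻¹ ∉ O')

/-- ABVN: every completion of `K` and of `E` is above a prime of `K`.  (`O.comap ι` is not `⊤`, it
contains `𝓞 K`: ZVAL.) -/
def ABVNStmt : Prop :=
  ∀ (K : Type) [Field K] [NumberField K] (E : Type) [Field E] [Algebra K E],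
    FiniteDimensional K E → ∀ (L : Type) [Field L] (O' : ValuationSubring L) (ι : E →+* L),
    Cpl E L O' ι → ∃ P : HeightOneSpectrum (𝓞 K), AbvV E (vP K P) L O' ι

/-- EXCN: there is a completion above every prime.  (Port of ZEXC; also above `2`.) -/
def EXCNStmt : Prop :=
  ∀ (K : Type) [Field K] [NumberField K] (P : HeightOneSpectrum (𝓞 K)) (E : Type) [Field E]
    [Algebra K E], FiniteDimensional K E → IsGalois K E →
    ∃ (L : Type) (_ : Field L) (O' : ValuationSubring L) (ι : E →+* L), AbvV E (vP K P) L O' ι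

/-- RAMN: almost all primes are unramified.  (Port of ZRAM.) -/
def RAMNStmt : Prop :=
  ∀ (K : Type) [Field K] [NumberField K] (E : Type) [Field E] [Algebra K E],
    FiniteDimensional K E → IsGalois K E →
    ∃ Z : Finset (HeightOneSpectrum (𝓞 K)), ∀ P : HeightOneSpectrum (𝓞 K), P ∉ Z →
      UnrV E (vP K P)

/-- SPUN: a prime which splits completely is unramified. -/
def SPUNStmt : Prop :=
  ∀ (K : Type) [Field K] [NumberField K] (E : Type) [Field E] [Algebra K E]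
    (P : HeightOneSpectrum (𝓞 K)), SplV E (vP K P) → UnrV E (vP K P)

/-- SPLN: infinitely many primes split completely.  (Port of ZSPL; or the primes of `E` of degree
one over `ℚ`.) -/
def SPLNStmt : Prop :=
  ∀ (K : Type) [Field K] [NumberField K] (E : Type) [Field E] [Algebra K E],
    FiniteDimensional K E → IsGalois K E → ∀ A : Finset (HeightOneSpectrum (𝓞 K)),
    ∃ P : HeightOneSpectrum (𝓞 K), P ∉ A ∧ SplV E (vP K P)

/-- KKN: the extension `K` of `K`. -/
def KKNStmt : Prop :=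
  ∀ (K : Type) [Field K] [NumberField K] (T : Finset (HeightOneSpectrum (𝓞 K))) (f : (𝓞 K)[X]),
    Tw K T f K ∧ fkE K K f = fk K f

/-! ### Local classes -/

/-- TYIN: the type does not depend on the completion.  (Port of ZTYI.) -/
def TYINStmt : Prop :=
  ∀ (K : Type) [Field K] [NumberField K] (g : ℕ) (P : HeightOneSpectrum (𝓞 K)) (ϖ : 𝓞 K),
    1 ≤ g → ∀ (f : (𝓞 K)[X]), f.Monic → f.natDegree = 2 * g + 1 →
    ∀ (L : Type) [Field L] (O₁ : ValuationSubring L) (ι : K →+* L), CompP P ϖ L O₁ ι →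
    ∀ (L' : Type) [Field L'] (O₂ : ValuationSubring L') (ι' : K →+* L'), CompP P ϖ L' O₂ ι' →
    ∀ (c : O₁) (γ : O₁[X]) (c' : O₂) (γ' : O₂[X]), OkL O₁ g γ → OkL O₂ g γ' →
    (fk K f).map ι = oL O₁ ((X - C c) * γ) → (fk K f).map ι' = oL O₂ ((X - C c') * γ') →
    ∀ (α : K[X]) (x x' : Ty), IsCoprime α (fk K f) → NSq (fk K f) α →
      TyL O₁ (ι (algebraMap (𝓞 K) K ϖ)) c γ x (α.map ι) →
      TyL O₂ (ι' (algebraMap (𝓞 K) K ϖ)) c' γ' x' (α.map ι') → x = x'

/-- UDAN: smooth points and unramified extensions.  (Port of ZUDA.) -/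
def UDANStmt : Prop :=
  ∀ (K : Type) [Field K] [NumberField K] (P : HeightOneSpectrum (𝓞 K)) (ϖ : 𝓞 K) (L : Type)
    [Field L] (O' : ValuationSubring L) (ι : K →+* L), UCP P ϖ L O' ι → ∀ f : (𝓞 K)[X], f.Monic →
    ∃ fO : O'[X], fO.Monic ∧ fO.natDegree = f.natDegree ∧ oL O' fO = (fk K f).map ι ∧
      (∀ ϖ' : O', (ϖ' : L) = ι (algebraMap (𝓞 K) K ϖ) → ∀ γ : O'[X], γ.Monic →
        Irreducible (rd O' γ) → InSq ϖ' fO γ → Sing P.asIdeal f)

/-- UDBN: unit classes and unramified extensions.  (Port of ZUDB.) -/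
def UDBNStmt : Prop :=
  ∀ (K : Type) [Field K] [NumberField K] (P : HeightOneSpectrum (𝓞 K)) (ϖ : 𝓞 K) (L : Type)
    [Field L] (O' : ValuationSubring L) (ι : K →+* L), UCP P ϖ L O' ι → ∀ f : (𝓞 K)[X],
    f.Monic → ¬ Sing P.asIdeal f → ∀ fO : O'[X], oL O' fO = (fk K f).map ι → ∀ α : K[X],
    IsCoprime α (fk K f) → USL O' fO (α.map ι) → US P.asIdeal f α

/-- LDAN: the classes of the twist, over `E`, where the twist and `E` are unramified.  (Port of
ZLDA.) -/
def LDANStmt : Prop :=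
  ∀ (K : Type) [Field K] [NumberField K] (g : ℕ) (P : HeightOneSpectrum (𝓞 K)) (ϖ : 𝓞 K)
    (E : Type) [Field E] [Algebra K E] (L : Type) [Field L] (O' : ValuationSubring L)
    (ι : E →+* L), UCP P ϖ L O' (ι.comp (algebraMap K E)) → ∀ (f : (𝓞 K)[X]) (d : 𝓞 K)
    (p : E[X]), f.Monic → f.natDegree = 2 * g + 1 → ¬ Sing P.asIdeal f → d ∉ P.asIdeal →
    IsCoprime p (fkE K E f) → NSq (fkE K E f) p → LSDEK (K := K) ι d f p → ∀ fO : O'[X],
    oL O' fO = (fkE K E f).map ι → USL O' fO (p.map ι)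

/-- LDBN: the classes of the twist, over `E`, where the twist is ramified and `E` is not.  (Port of
ZLDB.) -/
def LDBNStmt : Prop :=
  ∀ (K : Type) [Field K] [NumberField K] (g : ℕ) (P : HeightOneSpectrum (𝓞 K)) (ϖ : 𝓞 K)
    (E : Type) [Field E] [Algebra K E] (L : Type) [Field L] (O' : ValuationSubring L)
    (ι : E →+* L), 1 ≤ g → UCP P ϖ L O' (ι.comp (algebraMap K E)) →
    ∀ (f : (𝓞 K)[X]) (d : 𝓞 K) (p : E[X]) (c : O') (γ : O'[X]) (x : Ty), f.Monic →
    f.natDegree = 2 * g + 1 → OkL O' g γ → (fkE K E f).map ι = oL O' ((X - C c) * γ) →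
    d ∈ P.asIdeal → d ∉ P.asIdeal ^ 2 → IsCoprime p (fkE K E f) → NSq (fkE K E f) p →
    LSDEK (K := K) ι d f p →
    TyL O' (ι (algebraMap K E (algebraMap (𝓞 K) K ϖ))) c γ x (p.map ι) → x.2 = 0

/-! ### The primes above `2` -/

/-- E2T: the classes of the twist over `E` at the primes above `2`.  (`d = 1 + 8 e` is a square in
`L`, by SQD for `K`, which is dense in `L` by SPC2; then as LS2, `u(dx) = d^(deg u) u'`,
`w(dx) = z^n w'`.) -/
def E2TStmt : Prop :=
  ∀ (K : Type) [Field K] [NumberField K] (E : Type) [Field E] [Algebra K E],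
    (∀ P : HeightOneSpectrum (𝓞 K), (2 : 𝓞 K) ∈ P.asIdeal → SplV E (vP K P)) →
    ∀ (f : (𝓞 K)[X]) (d e : 𝓞 K) (p : E[X]), f.Monic → d = 1 + 8 * e →
    (∀ (L : Type) [Field L] (O' : ValuationSubring L) (ι : E →+* L), Cpl E L O' ι →
      LSDEK (K := K) ι d f p) → Loc2E E f p

/-- E2M: the classes with `Loc2E` form a group, stable under the change of the representative and
under the Galois group.  (SPC2, IRL2: `f` is irreducible over `L`; MUL; `Z22.abv_comp` of
`H22/T1/ZON3`.) -/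
def E2MStmt : Prop :=
  ∀ (K : Type) [Field K] [NumberField K] (E : Type) [Field E] [Algebra K E],
    (∀ P : HeightOneSpectrum (𝓞 K), (2 : 𝓞 K) ∈ P.asIdeal → SplV E (vP K P)) →
    ∀ (D : DatN K) (Y : ℕ), D.Ok → ∀ f ∈ FamN D Y,
    (∀ p q : E[X], Loc2E E f p → Loc2E E f q → Loc2E E f (p * q)) ∧
    (∀ p q s : E[X], IsCoprime s (fkE K E f) → fkE K E f ∣ q - p * s ^ 2 → Loc2E E f p →
      Loc2E E f q) ∧
    ∀ (p : E[X]) (σ : E ≃ₐ[K] E), Loc2E E f p → Loc2E E f (p.map (σ : E →+* E))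

/-- E2I: from `E` to `K`.  (Let `L`, `ι` be a completion of `K` above `2`, `P` its prime, `E = K(θ)`,
`m` the minimal polynomial of `θ`.  By EXCN and SPC2 there is a completion `L'` of `E` above `P` in which
`K` is dense.  For `x` in `K` near `θ` in `L'` the quotient `m(x) / m'(x)^2` is in the maximal
ideal of `vP K P`, so `m` has a root in `L` by Hensel's lemma: `ι` extends to `E`, and `L` is a
completion of `E` above `P`.) -/
def E2IStmt : Prop :=
  ∀ (K : Type) [Field K] [NumberField K] (E : Type) [Field E] [Algebra K E],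
    FiniteDimensional K E → IsGalois K E →
    (∀ P : HeightOneSpectrum (𝓞 K), (2 : 𝓞 K) ∈ P.asIdeal → SplV E (vP K P)) →
    ∀ (f : (𝓞 K)[X]) (α : K[X]), Loc2E E f (α.map (algebraMap K E)) → Loc2 f α

/-! ### The main step -/

/-- ON3N: the main step.  (Port of ZON3, `H22/T1/ZON3`, with the clause `Loc2E` in the set of the
classes over `E`, and `H90/NF/OneCore`, `H90/NF/ONEN`: W is the set of the types of the classes
over `K` which are classes of units outside `T` and have `Loc2`; L2M, L2D.) -/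
def ON3NStmt : Prop :=
  ∀ (K : Type) [Field K] [NumberField K] (Ram : Finset (HeightOneSpectrum (𝓞 K))),
    RecN Ram → OneTN K Ram

/-! ### Data and assembly -/

/-- TWSZN: the twisting elements, prime to the primes of `Z`.  (RAY and TWI of 87 for `m = 8 z`,
`z` in all the primes of `Z`.) -/
def TWSZNStmt : Prop :=
  ∀ (K : Type) [Field K] [NumberField K] (Z : Finset (HeightOneSpectrum (𝓞 K))),
    ∃ B : Finset (HeightOneSpectrum (𝓞 K)), Disjoint B Z ∧
    ∀ T' : Finset (HeightOneSpectrum (𝓞 K)), B ⊆ T' → Z ⊆ T' →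
    (∀ P : HeightOneSpectrum (𝓞 K), (2 : 𝓞 K) ∈ P.asIdeal → P ∈ T') →
    ∀ T : Finset (HeightOneSpectrum (𝓞 K)), Disjoint T T' → ∃ E : ℕ, 1 ≤ E ∧
      ∀ S ⊆ T, ∃ d ∈ Bx K (E : ℝ), TwiN T T' S d ∧ ∀ P ∈ Z, d ∉ P.asIdeal

/-- EXDTN: existence of the data, with `T` in a given infinite set.  (Port of ZEXD; EXDN,
`H70/NF/EXDN`.) -/
def EXDTNStmt : Prop :=
  ∀ (K : Type) [Field K] [NumberField K] (Q : Set (HeightOneSpectrum (𝓞 K))),
    (∀ A : Finset (HeightOneSpectrum (𝓞 K)), ∃ P ∈ Q, P ∉ A) →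
    ∀ T' : Finset (HeightOneSpectrum (𝓞 K)),
    (∀ P : HeightOneSpectrum (𝓞 K), (2 : 𝓞 K) ∈ P.asIdeal ∨ (3 : 𝓞 K) ∈ P.asIdeal → P ∈ T') →
    ∀ k b : ℕ, ∃ D : DatN K, D.Ok ∧ D.T' = T' ∧ D.T.card = k ∧ ∀ P ∈ D.T, b < Nm P ∧ P ∈ Q

/-- POSTN: a positive proportion, from the parts.  (Port of `posn_core`, `H29/NF/POSN`, and of
`zpos_core`, `H29/T1/ZPOS`.) -/
def POSTNStmt : Prop :=
  ∀ (K : Type) [Field K] [NumberField K], (∃ A, DenN K A) → BadN K → (∃ c : ℝ, FamLN K c) →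
    (∃ Ram, OneTN K Ram) → ∀ (E₀ : Type) [Field E₀] [Algebra K E₀], FiniteDimensional K E₀ →
    IsGalois K E₀ → (∃ m : ℕ, Module.finrank K E₀ = 2 ^ m) →
    (∀ P : HeightOneSpectrum (𝓞 K), (2 : 𝓞 K) ∈ P.asIdeal → SplV E₀ (vP K P)) →
    ∃ T : Finset (HeightOneSpectrum (𝓞 K)), (∀ P ∈ T, SplV E₀ (vP K P)) ∧ PosTN K E₀ T

/-- ZERTN: the equations with `a_1 = 0`.  (Port of ZERN, `H76/NF/ZERN`: `τ f` is
`(f.scaleRoots 9)(x - 3 a_1)`.  If `τ f` is irreducible modulo `P`, then `P` is not above `3` and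
`f` is irreducible modulo `P`, so `TowN f` gives `TowN (τ f)`; over `E` use SQSN for `E` and
translation.) -/
def ZERTNStmt : Prop :=
  ∀ (K : Type) [Field K] [NumberField K] (E₀ : Type) [Field E₀] [Algebra K E₀]
    (T : Finset (HeightOneSpectrum (𝓞 K))), PosTN K E₀ T → PosTZN K E₀ T

/-! ### The main theorem -/

/-- The 2-Selmer group is trivial and the group of points is finite of odd order. -/
def RkZ {E : Type} [Field E] (f : E[X]) : Prop := SelK f ∧ FinOdd f

/-- The main theorem. -/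
def MainRZT : Prop :=
  ∀ (K : Type) [Field K] [NumberField K] (E₀ : Type) [Field E₀] [Algebra K E₀],
    FiniteDimensional K E₀ → IsGalois K E₀ → (∃ m : ℕ, Module.finrank K E₀ = 2 ^ m) →
    (∀ P : HeightOneSpectrum (𝓞 K), (2 : 𝓞 K) ∈ P.asIdeal → SplV E₀ (vP K P)) →
    ∃ T : Finset (HeightOneSpectrum (𝓞 K)), (∀ P ∈ T, SplV E₀ (vP K P)) ∧
    ∃ δ : ℝ, 0 < δ ∧ ∃ Y₀ : ℝ, ∀ Y : ℝ, Y₀ ≤ Y →
      (AllN K Y).Finite ∧ 0 < (AllN K Y).ncard ∧
      δ * (AllN K Y).ncard ≤
        {f ∈ AllN K Y | Irreducible (fk K f) ∧ RkZ (fk K f) ∧ RkZ (fkE K E₀ f) ∧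
          ∀ (E : Type) [Field E] [Algebra K E], Tw K T f E → RkZ (fkE K E f)}.ncard ∧
      0 < {f ∈ AllN K Y | f.coeff 2 = 0}.ncard ∧
      δ * {f ∈ AllN K Y | f.coeff 2 = 0}.ncard ≤
        {f ∈ AllN K Y | f.coeff 2 = 0 ∧ Irreducible (fk K f) ∧ RkZ (fk K f) ∧
          RkZ (fkE K E₀ f) ∧
          ∀ (E : Type) [Field E] [Algebra K E], Tw K T f E → RkZ (fkE K E f)}.ncard

/-- FINTN: finitely many points over the extensions.  (`f` is irreducible over `E`: the degree of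
`E` over `K` is a power of two, that of `f` is three; `finOdd_of` of `H29/NF/MAINN` for `E`.) -/
def FINTNStmt : Prop :=
  ∀ (K : Type) [Field K] [NumberField K] (E : Type) [Field E] [Algebra K E],
    FiniteDimensional K E → (∃ m : ℕ, Module.finrank K E = 2 ^ m) → ∀ f : (𝓞 K)[X], f.Monic →
    f.natDegree = 3 → Irreducible (fk K f) → SelK (fkE K E f) → FinOdd (fkE K E f)

/-- MAINRZT: the main theorem, from the parts. -/
def MAINRZTStmt : Prop :=
  POSTNStmt → ZERTNStmt → FINTNStmt → ON3NStmt →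
  (∀ (K : Type) [Field K] [NumberField K], ∃ A, DenN K A) →
  (∀ (K : Type) [Field K] [NumberField K], BadN K) →
  (∀ (K : Type) [Field K] [NumberField K], ∃ c : ℝ, FamLN K c) →
  (∀ (K : Type) [Field K] [NumberField K],
    ∃ Ram : Finset (HeightOneSpectrum (𝓞 K)), RecN (K := K) Ram) → MainRZT

end Pool.RZT
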