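import Pool.Agent.H70.RZT.QUADC
import Pool.Agent.H5.TOW.GAL

/-!
# RZT: the number of the classes over an extension whose degree is a power of two
-/

set_option autoImplicit false

namespace Pool.RZT

open Polynomial Pool.HYP Pool.AVS Pool.TOW

/-- The classes modulo squares of the polynomials in `W`. -/
def ClP {K : Type*} [Field K] (f : K[X]) (W : Set K[X]) :
    Set ((AdjoinRoot f)ˣ ⧸ (powMonoidHom 2 : (AdjoinRoot f)ˣ →* (AdjoinRoot f)ˣ).range) :=
  ClS {a | ∃ p ∈ W, AdjoinRoot.mk f p = a}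

/-- The unit of a polynomial prime to `f`. -/
theorem exists_unit {K : Type*} [Field K] {f p : K[X]} (h : IsCoprime p f) :
    ∃ u : (AdjoinRoot f)ˣ, (u : AdjoinRoot f) = AdjoinRoot.mk f p := by
  obtain ⟨a, b, hab⟩ := h
  have hu : AdjoinRoot.mk f p * AdjoinRoot.mk f a = 1 := by
    have h1 := congrArg (AdjoinRoot.mk f) hab
    rw [map_add, map_mul, map_mul, AdjoinRoot.mk_self, mul_zero, add_zero, map_one] at h1
    rw [mul_comm]
    exact h1
  exact ⟨⟨AdjoinRoot.mk f p, AdjoinRoot.mk f a, hu, by rw [mul_comm]; exact hu⟩, rfl⟩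

theorem coprime_of_unit {K : Type*} [Field K] {f p : K[X]} {u : (AdjoinRoot f)ˣ}
    (h : (u : AdjoinRoot f) = AdjoinRoot.mk f p) : IsCoprime p f := by
  obtain ⟨a, ha⟩ := AdjoinRoot.mk_surjective ((u⁻¹ : (AdjoinRoot f)ˣ) : AdjoinRoot f)
  have h1 : AdjoinRoot.mk f (a * p) = AdjoinRoot.mk f 1 := by
    rw [map_mul, ha, ← h, map_one, Units.inv_mul]
  obtain ⟨b, hb⟩ := AdjoinRoot.mk_eq_mk.1 h1
  exact ⟨a, -b, by linear_combination hb⟩

theorem galc : ∀ m : ℕ, ∀ (K E : Type) [Field K] [Field E] [Algebra K E], (2 : K) ≠ 0 →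
      FiniteDimensional K E → IsGalois K E → Module.finrank K E = 2 ^ m →
      ∀ f : K[X], f.Monic → Irreducible f → Odd f.natDegree → ∀ W : Set E[X],
      (∀ p ∈ W, IsCoprime p (f.map (algebraMap K E)) ∧ NSq (f.map (algebraMap K E)) p) →
      (∀ p ∈ W, ∀ q ∈ W, p * q ∈ W) →
      (∀ p ∈ W, ∀ q s : E[X], IsCoprime s (f.map (algebraMap K E)) →
        f.map (algebraMap K E) ∣ q - p * s ^ 2 → q ∈ W) →
      (∀ p ∈ W, ∀ σ : E ≃ₐ[K] E, p.map (σ : E →+* E) ∈ W) →
      (ClP f {α | IsCoprime α f ∧ NSq f α ∧ α.map (algebraMap K E) ∈ W}).Finite →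
      (ClP (f.map (algebraMap K E)) W).Finite ∧
      (ClP (f.map (algebraMap K E)) W).ncard ≤
        (ClP f {α | IsCoprime α f ∧ NSq f α ∧ α.map (algebraMap K E) ∈ W}).ncard ^ 2 ^ m := by
  intro m
  induction m with
  | zero =>
    intro K E _ _ _ h2 hfd hg hfr f hf hirr hodd W hW0 hWm hWq hWs hfin
    classical
    rw [pow_zero] at hfr
    have hbot : ∀ x : E, ∃ y, algebraMap K E y = x := by
      intro x
      have h1 : (⊥ : Subalgebra K E) = ⊤ := Subalgebra.bot_eq_top_of_finrank_eq_one hfr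
      have h3 : x ∈ (⊥ : Subalgebra K E) := by rw [h1]; trivial
      exact Algebra.mem_bot.1 h3
    have hlift : ∀ p : E[X], ∃ α : K[X], α.map (algebraMap K E) = p := by
      intro p
      have hl : p ∈ Polynomial.lifts (algebraMap K E) := by
        rw [Polynomial.lifts_iff_coeff_lifts]
        intro n
        obtain ⟨y, hy⟩ := hbot (p.coeff n)
        exact ⟨y, hy⟩
      exact (Polynomial.mem_lifts p).1 hl
    have hex : ∀ ξ ∈ ClP (f.map (algebraMap K E)) W, ∃ (v : (AdjoinRoot f)ˣ) (α : K[X])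
        (u : (AdjoinRoot (f.map (algebraMap K E)))ˣ), QuotientGroup.mk u = ξ ∧
        (v : AdjoinRoot f) = AdjoinRoot.mk f α ∧
        (u : AdjoinRoot (f.map (algebraMap K E))) =
          AdjoinRoot.mk (f.map (algebraMap K E)) (α.map (algebraMap K E)) ∧
        α ∈ {α | IsCoprime α f ∧ NSq f α ∧ α.map (algebraMap K E) ∈ W} := by
      rintro ξ ⟨u, hu, p, hpW, hp⟩
      obtain ⟨α, rfl⟩ := hlift p
      have hc : IsCoprime α f :=
        (Polynomial.isCoprime_map (algebraMap K E)).1 (hW0 _ hpW).1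
      obtain ⟨v, hv⟩ := exists_unit hc
      refine ⟨v, α, u, hu, hv, hp.symm, hc, ?_, hpW⟩
      obtain ⟨c, hc'⟩ := (hW0 _ hpW).2
      obtain ⟨c', rfl⟩ := hbot c
      refine ⟨c', ?_⟩
      apply (algebraMap K E).injective
      rw [map_mul, ← hc']
      have h5 := Pool.HT5.norm_io (L := E) f hf (AdjoinRoot.mk f α)
      rw [Pool.HT5.io_mk] at h5
      exact h5.symm
    choose! V A U hU hV hA hAW using hex
    have hm : ∀ ξ ∈ ClP (f.map (algebraMap K E)) W,
        (QuotientGroup.mk (V ξ) : (AdjoinRoot f)ˣ ⧸ (powMonoidHom 2 : (AdjoinRoot f)ˣ →*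
          (AdjoinRoot f)ˣ).range) ∈
        ClP f {α | IsCoprime α f ∧ NSq f α ∧ α.map (algebraMap K E) ∈ W} :=
      fun ξ hξ => ⟨V ξ, rfl, A ξ, hAW ξ hξ, (hV ξ hξ).symm⟩
    have hi : Set.InjOn (fun ξ => (QuotientGroup.mk (V ξ) : (AdjoinRoot f)ˣ ⧸
        (powMonoidHom 2 : (AdjoinRoot f)ˣ →* (AdjoinRoot f)ˣ).range))
        (ClP (f.map (algebraMap K E)) W) := by
      intro ξ hξ ξ' hξ' h
      obtain ⟨g, hg⟩ := cl_eq.1 h
      obtain ⟨s, hs⟩ := AdjoinRoot.mk_surjective (g : AdjoinRoot f)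
      have h1 : AdjoinRoot.mk f (A ξ') = AdjoinRoot.mk f (A ξ * s ^ 2) := by
        rw [map_mul, map_pow, hs, ← hV ξ hξ, ← hV ξ' hξ', hg, Units.val_mul, Units.val_pow_eq_pow_val]
      have h2 := congrArg (Pool.HT5.io E f) h1
      rw [Pool.HT5.io_mk, Pool.HT5.io_mk, Polynomial.map_mul, Polynomial.map_pow] at h2
      rw [← hU ξ hξ, ← hU ξ' hξ', cl_eq]
      have hsc : IsCoprime (s.map (algebraMap K E)) (f.map (algebraMap K E)) :=
        (Polynomial.isCoprime_map (algebraMap K E)).2 (coprime_of_unit hs.symm)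
      obtain ⟨w, hw⟩ := exists_unit hsc
      refine ⟨w, Units.ext ?_⟩
      rw [Units.val_mul, Units.val_pow_eq_pow_val, hw, hA ξ hξ, hA ξ' hξ', ← map_pow, ← map_mul]
      exact h2
    refine ⟨Set.Finite.of_finite_image (hfin.subset (Set.image_subset_iff.2 hm)) hi, ?_⟩
    rw [pow_zero, pow_one]
    exact Set.ncard_le_ncard_of_injOn _ hm hi hfin
  | succ m ih =>
    intro K E _ _ _ h2 hfd hg hfr f hf hirr hodd W hW0 hWm hWq hWs hfin
    have hcard : Nat.card (E ≃ₐ[K] E) = 2 ^ (m + 1) := by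
      rw [IsGalois.card_aut_eq_finrank, hfr]
    have : Fact (Nat.Prime 2) := ⟨Nat.prime_two⟩
    obtain ⟨H, hH⟩ := Sylow.exists_subgroup_card_pow_prime (G := E ≃ₐ[K] E) 2 (n := m)
      (by rw [hcard]; exact pow_dvd_pow 2 (Nat.le_succ m))
    have hidx : H.index = 2 := by
      have h3 := H.card_mul_index
      rw [hH, hcard, pow_succ] at h3
      exact Nat.eq_of_mul_eq_mul_left (pow_pos (by norm_num) m) h3
    have hHn : H.Normal := Subgroup.normal_of_index_eq_two hidx
    set K1 : IntermediateField K E := IntermediateField.fixedField H with hK1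
    have hfr1 : Module.finrank K1 E = 2 ^ m := by
      rw [hK1, IntermediateField.finrank_fixedField_eq_card, hH]
    have hfr0 : Module.finrank K K1 = 2 := by
      have h3 := Module.finrank_mul_finrank K K1 E
      rw [hfr1, hfr, pow_succ, mul_comm] at h3
      exact Nat.eq_of_mul_eq_mul_left (pow_pos (by norm_num) m) h3
    have hg0 : IsGalois K K1 := by rw [hK1]; infer_instance
    have hg1 : IsGalois K1 E := IsGalois.tower_top_intermediateField K1
    have h21 : (2 : K1) ≠ 0 := by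
      intro h
      apply h2
      apply (algebraMap K K1).injective
      rw [map_ofNat, h, map_zero]
    obtain ⟨σ, hσσ, hσf, x₀, hx₀⟩ := invol K K1 hfr0
    set f1 : K1[X] := f.map (algebraMap K K1) with hf1
    have hf1m : f1.Monic := hf.map _
    have hf1d : f1.natDegree = f.natDegree := hf.natDegree_map _
    have hf1i : Irreducible f1 := Pool.HT5.irr_quad σ hσσ hσf f hf hodd hirr
    have hmap : f1.map (algebraMap K1 E) = f.map (algebraMap K E) := by
      rw [hf1, Polynomial.map_map]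
      rfl
    set W1 : Set K1[X] := {p | IsCoprime p f1 ∧ NSq f1 p ∧ p.map (algebraMap K1 E) ∈ W} with hW1
    have hθ : σ (x₀ - σ x₀) = -(x₀ - σ x₀) := by rw [map_sub, hσσ]; ring
    have hθ0 : x₀ - σ x₀ ≠ 0 := sub_ne_zero.2 (Ne.symm hx₀)
    have hW1m : ∀ p ∈ W1, ∀ q ∈ W1, p * q ∈ W1 := by
      rintro p ⟨hpc, hpn, hpw⟩ q ⟨hqc, hqn, hqw⟩
      refine ⟨hpc.mul_left hqc, ?_, ?_⟩
      · show IsSquare _
        rw [map_mul, map_mul]
        exact IsSquare.mul hpn hqn
      · rw [Polynomial.map_mul]; exact hWm _ hpw _ hqw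
    have hW1q : ∀ p ∈ W1, ∀ q s : K1[X], IsCoprime s f1 → f1 ∣ q - p * s ^ 2 → q ∈ W1 := by
      rintro p ⟨hpc, hpn, hpw⟩ q s hsc hd
      obtain ⟨k, hk⟩ := hd
      have hq' : q = p * s ^ 2 + f1 * k := by rw [← hk]; ring
      refine ⟨?_, ?_, ?_⟩
      · rw [hq']
        exact (hpc.mul_left (hsc.pow_left)).add_mul_left_left k
      · show IsSquare _
        have : AdjoinRoot.mk f1 q = AdjoinRoot.mk f1 p * AdjoinRoot.mk f1 s ^ 2 := by
          rw [hq', map_add, map_mul, map_pow, map_mul, AdjoinRoot.mk_self, zero_mul, add_zero]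
        rw [this, map_mul, map_pow]
        exact IsSquare.mul hpn ⟨_, pow_two _⟩
      · refine hWq _ hpw _ (s.map (algebraMap K1 E)) ?_ ?_
        · rw [← hmap]
          exact (Polynomial.isCoprime_map (algebraMap K1 E)).2 hsc
        · rw [← hmap, ← Polynomial.map_pow, ← Polynomial.map_mul, ← Polynomial.map_sub]
          exact Polynomial.map_dvd _ ⟨k, hk⟩
    have hW1s : ∀ p ∈ W1, p.map (σ : K1 →+* K1) ∈ W1 := by
      rintro p ⟨hpc, hpn, hpw⟩
      have hf1s : f1.map (σ : K1 →+* K1) = f1 := by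
        rw [hf1, Polynomial.map_map]
        congr 1
        ext x; simp
      refine ⟨?_, ?_, ?_⟩
      · have := (Polynomial.isCoprime_map (σ : K1 →+* K1)).2 hpc
        rw [hf1s] at this
        exact this
      · show IsSquare _
        have h5 := Pool.HT5.norm_sg σ f hf (AdjoinRoot.mk (Pool.HT5.fL K1 f) p)
        rw [Pool.HT5.sg_mk] at h5
        obtain ⟨c, hc⟩ := hpn
        refine ⟨σ c, ?_⟩
        rw [← map_mul, ← hc]
        exact h5
      · have h6 := hWs _ hpw (σ.liftNormal E)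
        have h7 : (p.map (algebraMap K1 E)).map ((σ.liftNormal E : E ≃ₐ[K] E) : E →+* E) =
            (p.map (σ : K1 →+* K1)).map (algebraMap K1 E) := by
          rw [Polynomial.map_map, Polynomial.map_map]
          congr 1
          ext x
          exact σ.liftNormal_commutes E x
        rw [← h7]; exact h6
    -- coprime to `f1`
    have fact : Fact (Irreducible f1) := ⟨hf1i⟩
    have hcopL : ∀ s : K1[X], AdjoinRoot.mk f1 s ≠ 0 → IsCoprime s f1 := by
      intro s hs0
      have : ¬ f1 ∣ s := fun h => hs0 (AdjoinRoot.mk_eq_zero.2 h)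
      exact ((hf1i.coprime_iff_not_dvd).2 this).symm
    set S : Set (AdjoinRoot f1) := {a | ∃ p ∈ W1, AdjoinRoot.mk f1 p = a} with hS
    set SK : Set (AdjoinRoot f) := {a | IsSquare (Algebra.norm K a) ∧ Pool.HT5.io K1 f a ∈ S}
      with hSK
    have hsub : ClS SK ⊆ ClP f {α | IsCoprime α f ∧ NSq f α ∧ α.map (algebraMap K E) ∈ W} := by
      rintro ξ ⟨u, hu, hun, p, hpW, hp⟩
      obtain ⟨α, hα⟩ := AdjoinRoot.mk_surjective (u : AdjoinRoot f)
      refine ⟨u, hu, α, ⟨coprime_of_unit hα.symm, ?_, ?_⟩, hα⟩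
      · show IsSquare _
        rw [hα]
        exact hun
      · have h1 : α.map (algebraMap K K1) ∈ W1 := by
          refine hW1q p hpW _ 1 isCoprime_one_left ?_
          rw [one_pow, mul_one]
          rw [← hα, Pool.HT5.io_mk] at hp
          exact AdjoinRoot.mk_eq_mk.1 hp.symm
        have h2 := h1.2.2
        rw [Polynomial.map_map] at h2
        exact h2
    have hSKf : (ClS SK).Finite := hfin.subset hsub
    obtain ⟨hq1, hq2⟩ := quadc (L := K1) h21 σ hσσ hσf (x₀ - σ x₀) hθ0 hθ f hf hodd hf1i S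
      (by
        rintro u ⟨p, hpW, rfl⟩
        exact hpW.2.1)
      (by
        rintro u ⟨p, hpW, rfl⟩ v ⟨q, hqW, rfl⟩
        exact ⟨p * q, hW1m p hpW q hqW, by rw [map_mul]⟩)
      (by
        rintro u ⟨p, hpW, rfl⟩ g hg
        obtain ⟨s, rfl⟩ := AdjoinRoot.mk_surjective g
        exact ⟨p * s ^ 2, hW1q p hpW (p * s ^ 2) s (hcopL s hg) (by simp), by
          rw [map_mul, map_pow]⟩)
      (by
        rintro u ⟨p, hpW, rfl⟩
        exact ⟨p.map (σ : K1 →+* K1), hW1s p hpW, by rw [Pool.HT5.sg_mk]⟩)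
      hSKf
    have hcl : ClP f1 W1 = ClS S := rfl
    obtain ⟨h3, h4⟩ := ih K1 E h21 inferInstance hg1 hfr1 f1 hf1m hf1i
      (by rw [hf1d]; exact hodd) W (by rw [hmap]; exact hW0) hWm (by rw [hmap]; exact hWq)
      (fun p hpW τ => hWs p hpW (τ.restrictScalars K)) (by
        rw [← hW1, hcl]
        exact hq1)
    rw [hmap] at h3 h4
    refine ⟨h3, h4.trans ?_⟩
    rw [← hW1, hcl]
    have h5 : (ClS S).ncard ≤
        (ClP f {α | IsCoprime α f ∧ NSq f α ∧ α.map (algebraMap K E) ∈ W}).ncard ^ 2 :=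
      hq2.trans (Nat.pow_le_pow_left (Set.ncard_le_ncard hsub hfin) 2)
    calc (ClS S).ncard ^ 2 ^ m ≤ ((ClP f {α | IsCoprime α f ∧ NSq f α ∧
          α.map (algebraMap K E) ∈ W}).ncard ^ 2) ^ 2 ^ m := Nat.pow_le_pow_left h5 _
      _ = _ := by
        rw [← pow_mul, pow_succ' 2 m]

end Pool.RZT
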