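import Pool.Agent.H70.RZT.S2
import Pool.Agent.H2.RZT.ON3N

/-!
# RZT, row INHN: the 2-Selmer groups of the twists over the extensions
-/

set_option autoImplicit false

namespace Pool.RZT

open Polynomial Matrix NumberField IsDedekindDomain Pool.HYP Pool.TOW Pool.AVS Pool.T1 Pool.NF
  Pool.PRK Pool.PNF

namespace Inhn

variable {K : Type} [Field K] [NumberField K]

/-- The classes over `K` which are in the set `WWN` over `E` satisfy the local conditions of the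
twist over `K`. -/
theorem down (hIRU : IRUNStmt) (hTAK : TAKNStmt) (hTKL : TKLKStmt) (hSEL : SELNStmt)
    (hSPC : SPCNStmt) (hUNC : UNCNStmt) (hEXC : EXCNStmt) (hUDA : UDANStmt) (hUDB : UDBNStmt)
    (hE2I : E2IStmt) (D : DatN K) (Y : ℕ) (hok : D.Ok) (f : (𝓞 K)[X]) (hf : f ∈ FamSN D Y)
    (ϖ : HeightOneSpectrum (𝓞 K) → 𝓞 K)
    (hϖ : ∀ P : HeightOneSpectrum (𝓞 K), ϖ P ∈ P.asIdeal ∧ ϖ P ∉ P.asIdeal ^ 2)
    (S : Finset (HeightOneSpectrum (𝓞 K))) (hS : S ⊆ D.T) (d : 𝓞 K) (hd : TwiN D.T D.T' S d)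
    (E : Type) [Field E] [Algebra K E] (htw : Tw K D.T f E) (α : K[X])
    (hα : IsCoprime α (fk K f)) (hNα : NSq (fk K f) α)
    (hαW : α.map (algebraMap K E) ∈ On3n.WWN (K := K) E f ϖ S D.T') :
    ∀ (L : Type) [Field L] (O' : ValuationSubring L) (ι : K →+* L), Cpl K L O' ι →
      LSDK ι d f α := by
  obtain ⟨hfF, hsm⟩ := hf
  have hfF' := hfF
  obtain ⟨hfm, hfn, -, hfT, hfT'⟩ := hfF'
  have hfn' : f.natDegree = 2 * 1 + 1 := hfn
  obtain ⟨hfin, hgal, hdeg, hTsp, h2sp, hram⟩ := htw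
  have h2T' : ∀ P : HeightOneSpectrum (𝓞 K), P ∉ D.T' → (2 : 𝓞 K) ∉ P.asIdeal :=
    fun P hP h2 => hP (hok.2.2.2 P (Or.inl h2))
  have h2T : ∀ P ∈ D.T, (2 : 𝓞 K) ∉ P.asIdeal := fun P hP =>
    h2T' P (Finset.disjoint_left.1 hok.1 hP)
  obtain ⟨⟨-, -, hαc⟩, hα2⟩ := hαW
  have hL2 : Loc2 f α := hE2I K E hfin hgal h2sp f α hα2
  -- the class is that of a unit outside `S`
  have hUS1 : ∀ P : HeightOneSpectrum (𝓞 K), P ∉ S → US P.asIdeal f α := by
    intro P hPS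
    by_cases hirr : Irreducible (md P.asIdeal f)
    · exact hIRU K P 1 f f α hfm hfn' ⟨hfm, hfn', hirr⟩
        (fun i => by rw [sub_self, coeff_zero]; exact P.asIdeal.zero_mem) hα hNα
    have hPT' : P ∉ D.T' := by
      intro h1
      apply hirr
      have h2 : md P.asIdeal f = md P.asIdeal (D.ρ P) := by
        ext i
        rw [Polynomial.coeff_map, Polynomial.coeff_map, Ideal.Quotient.eq, ← coeff_sub]
        exact hfT' P h1 i
      rw [h2]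
      exact (hok.2.2.1 P h1).2.2
    have h2P : (2 : 𝓞 K) ∉ P.asIdeal := h2T' P hPT'
    have hU : UnrV E (vP K P) := (hram P).resolve_right hirr
    obtain ⟨L, _, O', ι, hC⟩ := hEXC K P E hfin hgal
    have hUC := hUNC K P (ϖ P) h2P (hϖ P).1 (hϖ P).2 E L O' ι hC hU
    obtain ⟨fO, -, -, hfO, -⟩ := hUDA K P (ϖ P) L O' (ι.comp (algebraMap K E)) hUC f hfm
    have hfO' : oL O' fO = (fkE K E f).map ι := hfO.trans (Polynomial.map_map _ _ _).symm
    have h1 := (hαc L O' ι P hC).2 hPS hU hPT' fO hfO'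
    rw [Polynomial.map_map] at h1
    exact hUDB K P (ϖ P) L O' (ι.comp (algebraMap K E)) hUC f hfm (hsm P) fO hfO α hα h1
  have huni : Uni D.T ϖ := fun P _ => hϖ P
  refine (hSEL K D Y hok f ⟨hfF, hsm⟩ ϖ huni S hS d hd α hα hNα).2
    ⟨⟨⟨hα, hNα, fun P hP => hUS1 P fun h1 => hP (hS h1)⟩, hL2⟩, fun P hP => ?_⟩
  obtain ⟨hT1, -, -, hT4, -⟩ := hTAK K P (ϖ P) (h2T P hP) (hϖ P).1 (hϖ P).2 (D.c P)
    (D.γ P) f (hok.2.1 P hP) hfm hfn (hfT P hP)
  obtain ⟨x, hx, -⟩ := hT1 α hα hNα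
  refine ⟨x, hx, fun hPS => ?_, fun hPS => (hT4 α x hα hNα hx).1 (hUS1 P hPS)⟩
  obtain ⟨L, _, O', ι, hC⟩ := hEXC K P E hfin hgal
  have hIC := hSPC K P (ϖ P) (h2T P hP) (hϖ P).1 (hϖ P).2 E L O' ι hC (hTsp P hP)
  obtain ⟨c', γ', hk, hfL, hiff⟩ := hTKL (𝓞 K) K P (ϖ P) L O' (ι.comp (algebraMap K E)) hIC 1
    (D.c P) (D.γ P) f le_rfl (hok.2.1 P hP) hfm hfn (hfT P hP)
  have hfac'' : (fkE K E f).map ι = oL O' ((X - C c') * γ') :=
    (Polynomial.map_map _ _ _).trans hfL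
  have hy := (hiff α hα hNα x).1 hx
  have hy' : TyL O' (ι (algebraMap K E (algebraMap (𝓞 K) K (ϖ P)))) c' γ' x
      ((α.map (algebraMap K E)).map ι) := by
    rw [Polynomial.map_map]
    exact hy
  exact (hαc L O' ι P hC).1 hPS c' γ' x hk hfac'' hy'

/-- The trivial class satisfies the local conditions. -/
theorem lsd_one {R : Type} [CommRing R] {K : Type} [Field K] [Algebra R K] {L : Type} [Field L]
    (ι : K →+* L) (d : R) (f : R[X]) : LSDK ι d f (1 : K[X]) := by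
  refine ⟨1, 0, 1, monic_one, isCoprime_one_left, one_dvd _, ?_⟩
  have : kap ((1 : L[X]).comp (C (ι (algebraMap R K d)) * X)) = 1 := by
    unfold Pool.HYP.kap
    rw [one_comp, natDegree_one, pow_zero, one_mul]
  rw [this, Polynomial.map_one, one_pow, mul_one, sub_self]
  exact dvd_zero _

/-- If the Selmer group of the twist is trivial, the classes which satisfy the local conditions are
trivial. -/
theorem triv (hSGK : SGKStmt) {f : (𝓞 K)[X]} (hf : f.Monic) {d : 𝓞 K} (hd : d ≠ 0)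
    (hs : (SelG (fk K (f.scaleRoots d))).Subsingleton) (α : K[X])
    (hα : IsCoprime α (fk K f)) (hNα : NSq (fk K f) α)
    (hL : ∀ (L : Type) [Field L] (O' : ValuationSubring L) (ι : K →+* L), Cpl K L O' ι →
      LSDK ι d f α) : ∃ s : K[X], fk K f ∣ α - s ^ 2 := by
  obtain ⟨e, he⟩ := hSGK (𝓞 K) K f d hf hd
  -- the unit of `α`
  obtain ⟨a, b, hab⟩ := hα
  have hu : AdjoinRoot.mk (fk K f) α * AdjoinRoot.mk (fk K f) a = 1 := by
    have h1 := congrArg (AdjoinRoot.mk (fk K f)) hab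
    rw [map_add, map_mul, map_mul, AdjoinRoot.mk_self, mul_zero, add_zero, map_one] at h1
    rw [mul_comm]
    exact h1
  let u : (AdjoinRoot (fk K f))ˣ := ⟨AdjoinRoot.mk (fk K f) α, AdjoinRoot.mk (fk K f) a, hu, by
    rw [mul_comm]; exact hu⟩
  have h1 : e (QuotientGroup.mk u) ∈ SelG (fk K (f.scaleRoots d)) :=
    (he u α rfl).2 ⟨hNα, hL⟩
  have h2 : e (QuotientGroup.mk 1) ∈ SelG (fk K (f.scaleRoots d)) := by
    refine (he 1 1 (by rw [map_one, Units.val_one])).2 ⟨?_, fun L _ O' ι _ => lsd_one ι d f⟩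
    unfold NSq
    rw [map_one, map_one]
    exact IsSquare.one
  have h3 : (QuotientGroup.mk u : (AdjoinRoot (fk K f))ˣ ⧸ SqG (fk K f)) = QuotientGroup.mk 1 :=
    e.injective (hs h1 h2)
  have h4 : u ∈ SqG (fk K f) := by
    have h5 : (QuotientGroup.mk u : (AdjoinRoot (fk K f))ˣ ⧸ SqG (fk K f)) = 1 := h3
    exact (QuotientGroup.eq_one_iff u).1 h5
  obtain ⟨v, hv⟩ := h4
  obtain ⟨s, hs'⟩ := AdjoinRoot.mk_surjective (v : AdjoinRoot (fk K f))
  refine ⟨s, ?_⟩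
  have h6 : (v : AdjoinRoot (fk K f)) ^ 2 = AdjoinRoot.mk (fk K f) α := by
    have := congrArg (fun w : (AdjoinRoot (fk K f))ˣ => (w : AdjoinRoot (fk K f))) hv
    simpa using this
  rw [← AdjoinRoot.mk_eq_mk, map_pow, hs', h6]

end Inhn

open On3n Inhn in
/-- INHN: triviality over the extensions. -/
theorem inhn (hIRU : IRUNStmt) (hIRRN : IRRNStmt) (hTAK : TAKNStmt) (hTKL : TKLKStmt)
    (hSEL : SELNStmt) (hSGK : SGKStmt) (hSPC : SPCNStmt)
    (hUNC : UNCNStmt) (hEXC : EXCNStmt) (hUDA : UDANStmt) (hUDB : UDBNStmt)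
    (hLDA : LDANStmt) (hLDB : LDBNStmt) (hE2T : E2TStmt) (hE2M : E2MStmt) (hE2I : E2IStmt)
    (hTWS : ZTWSStmt) : INHNStmt := by
  classical
  intro K _ _ D Y hok hY f hf S hS d hd hs E _ _ htw
  have hCLA : CLAStmt := cla unr
  have hTYM : TYMStmt := tym unr nmu
  have hTYQ : TYQStmt := tyq unr
  have hTYS : TYSStmt := tys unr
  have hfF := hf.1
  have hsm := hf.2
  have hfm : f.Monic := hfF.1
  have hfn : f.natDegree = 2 * 1 + 1 := hfF.2.1
  have hodd : Odd f.natDegree := by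
    rw [hfn]
    exact odd_two_mul_add_one 1
  have hfi : Irreducible (fk K f) := hIRRN K D Y hok f hfF
  have h2T' : ∀ P : HeightOneSpectrum (𝓞 K), P ∉ D.T' → (2 : 𝓞 K) ∉ P.asIdeal :=
    fun P hP h2 => hP (hok.2.2.2 P (Or.inl h2))
  have h2T : ∀ P ∈ D.T, (2 : 𝓞 K) ∉ P.asIdeal := fun P hP =>
    h2T' P (Finset.disjoint_left.1 hok.1 hP)
  have h2S : ∀ P ∈ S, (2 : 𝓞 K) ∉ P.asIdeal := fun P hP => h2T P (hS hP)
  have hex : ∀ P : HeightOneSpectrum (𝓞 K), ∃ ϖ : 𝓞 K, ϖ ∈ P.asIdeal ∧ ϖ ∉ P.asIdeal ^ 2 := by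
    intro P
    have h1 : P.asIdeal ^ 2 < P.asIdeal := by
      have := Ideal.pow_right_strictAnti P.asIdeal P.ne_bot P.isPrime.ne_top one_lt_two
      simpa using this
    exact Set.exists_of_ssubset h1
  choose ϖ hϖ using hex
  obtain ⟨⟨hd0, hdS, hdT, hdO⟩, e, he⟩ := id hd
  obtain ⟨hfin, hgal, hdeg, hTsp, h2sp, hram⟩ := id htw
  by_contra hne
  -- a nontrivial class
  obtain ⟨p, hp, hNp, hns, hLS⟩ := hTWS (𝓞 K) K E f d hfm hd0 hne
  have hpW : p ∈ WWN (K := K) E f ϖ S D.T' :=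
    ⟨On3n.sel_mem hSPC hUNC hLDA hLDB hfm hfn hsm (fun P _ => hϖ P) h2S h2T'
      (fun P hP => hTsp P (hS hP)) hdS
      (fun P hPS hPT' => by
        by_cases hPT : P ∈ D.T
        · exact hdT P hPT hPS
        · exact hdO P hPT hPT') p hp hNp hLS, hE2T K E h2sp f d e p hfm he hLS⟩
  have hloc : ∀ P ∈ S, ∀ (L : Type) [Field L] (O : ValuationSubring L) (ι : E →+* L),
      AbvV E (vP K P) L O ι → Loc L O (ι (algebraMap K E (algebraMap (𝓞 K) K (ϖ P)))) := by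
    intro P hP L _ O ι hC
    exact (hSPC K P (ϖ P) (h2S P hP) (hϖ P).1 (hϖ P).2 E L O ι hC (hTsp P (hS hP))).loc
  obtain ⟨hm1, hm2, hm3⟩ := hE2M K E h2sp D Y hok f hfF
  obtain ⟨α, hα, hNα, hnα, hαW⟩ := gal K E two_ne_zero hfin hgal hdeg (fk K f) (hfm.map _) hfi
    (by rw [hfm.natDegree_map]; exact hodd) (WWN (K := K) E f ϖ S D.T')
    (fun p hp => ⟨hp.1.1, hp.1.2.1⟩)
    (fun p hp q hq => ⟨Z22.mul_mem hCLA hTYM hTYQ uslm le_rfl hfm hloc p hp.1 q hq.1,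
      hm1 p q hp.2 hq.2⟩)
    (fun p hp q s hs hd => ⟨Z22.sq_mem hCLA hTYS hTYQ uslm le_rfl hfm hloc p hp.1 q s hs hd,
      hm2 p q s hs hd hp.2⟩)
    (fun p hp σ => ⟨Z22.gal_mem hfm p hp.1 σ, hm3 p σ hp.2⟩) ⟨p, hpW, hns⟩
  exact hnα (triv hSGK hfm hd0 hs α hα hNα
    (down hIRU hTAK hTKL hSEL hSPC hUNC hEXC hUDA hUDB hE2I D Y hok f hf ϖ hϖ S hS d hd E htw α hα
      hNα hαW))

end Pool.RZT
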