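import Pool.Agent.H70.RZT.S2
import Pool.Agent.H70.RZT.INHN
import Pool.Agent.H70.RZT.GALC

/-!
# RZT, row CTRN: the size of the 2-Selmer groups of the twists over the extensions
-/

set_option autoImplicit false

namespace Pool.RZT

open Polynomial Matrix NumberField IsDedekindDomain Pool.HYP Pool.TOW Pool.AVS Pool.T1 Pool.NF
  Pool.PRK Pool.PNF

namespace Ctrn

/-- SGK over the field `E`. -/
theorem sgE (hSGK : SGKStmt) (E : Type) [Field E] (F : E[X]) (δ : E) (hF : F.Monic)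
    (hδ : δ ≠ 0) :
    ∃ e : ((AdjoinRoot F)ˣ ⧸ SqG F) ≃ ((AdjoinRoot (F.scaleRoots δ))ˣ ⧸ SqG (F.scaleRoots δ)),
      ∀ (u : (AdjoinRoot F)ˣ) (α : E[X]), AdjoinRoot.mk F α = (u : AdjoinRoot F) →
        (e (QuotientGroup.mk u) ∈ SelG (F.scaleRoots δ) ↔ NSq F α ∧
          ∀ (L : Type) [Field L] (O' : ValuationSubring L) (ι : E →+* L), Cpl E L O' ι →
            ∃ u w s : L[X], u.Monic ∧ IsCoprime u ((F.scaleRoots δ).map ι) ∧
              u ∣ w ^ 2 - (F.scaleRoots δ).map ι ∧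
              F.map ι ∣ Pool.HYP.kap (u.comp (C (ι δ) * X)) - α.map ι * s ^ 2) := by
  have h := hSGK E E F δ hF hδ
  have h1 : ∀ G : E[X], fk E G = G := fun G => by
    unfold fk
    rw [Algebra.algebraMap_self, Polynomial.map_id]
  unfold LSDK at h
  simp only [Algebra.algebraMap_self, RingHom.id_apply] at h
  rw [h1 F, h1 (F.scaleRoots δ)] at h
  exact h

/-- The injection of the classes. -/
theorem ncard_le_equiv {α β : Type*} (e : α ≃ β) {A : Set α} {B : Set β}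
    (h : ∀ b ∈ B, e.symm b ∈ A) (hA : A.Finite) : B.Finite ∧ B.ncard ≤ A.ncard := by
  have hi : Set.InjOn e.symm B := fun x _ y _ hxy => e.symm.injective hxy
  exact ⟨Set.Finite.of_finite_image (hA.subset (Set.image_subset_iff.2 h)) hi,
    Set.ncard_le_ncard_of_injOn _ h hi hA⟩

end Ctrn

open On3n Inhn Ctrn in
/-- CTRN: the size of the Selmer groups over the extensions. -/
theorem ctrn (hIRU : IRUNStmt) (hIRRN : IRRNStmt) (hTAK : TAKNStmt) (hTKL : TKLKStmt)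
    (hSEL : SELNStmt) (hSGK : SGKStmt) (hSPC : SPCNStmt)
    (hUNC : UNCNStmt) (hEXC : EXCNStmt) (hUDA : UDANStmt) (hUDB : UDBNStmt)
    (hLDA : LDANStmt) (hLDB : LDBNStmt) (hE2T : E2TStmt) (hE2M : E2MStmt) (hE2I : E2IStmt) :
    CTRNStmt := by
  classical
  intro K _ _ D Y hok f hf S hS d hd hs E _ _ htw
  have hCLA : CLAStmt := cla unr
  have hTYM : TYMStmt := tym unr nmu
  have hTYQ : TYQStmt := tyq unr
  have hTYS : TYSStmt := tys unr
  have hfF := hf.1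
  have hsm := hf.2
  have hfm : f.Monic := hfF.1
  have hfn : f.natDegree = 2 * 1 + 1 := hfF.2.1
  have hodd : Odd f.natDegree := by
    rw [hfn]
    exact odd_two_mul_add_one 1
  have hfi : Irreducible (fk K f) := hIRRN K D Y hok f hfF
  have h2T' : ∀ P : HeightOneSpectrum (𝓞 K), P ∉ D.T' → (2 : 𝓞 K) ∉ P.asIdeal :=
    fun P hP h2 => hP (hok.2.2.2 P (Or.inl h2))
  have h2T : ∀ P ∈ D.T, (2 : 𝓞 K) ∉ P.asIdeal := fun P hP =>
    h2T' P (Finset.disjoint_left.1 hok.1 hP)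
  have h2S : ∀ P ∈ S, (2 : 𝓞 K) ∉ P.asIdeal := fun P hP => h2T P (hS hP)
  have hex : ∀ P : HeightOneSpectrum (𝓞 K), ∃ ϖ : 𝓞 K, ϖ ∈ P.asIdeal ∧ ϖ ∉ P.asIdeal ^ 2 := by
    intro P
    have h1 : P.asIdeal ^ 2 < P.asIdeal := by
      have := Ideal.pow_right_strictAnti P.asIdeal P.ne_bot P.isPrime.ne_top one_lt_two
      simpa using this
    exact Set.exists_of_ssubset h1
  choose ϖ hϖ using hex
  obtain ⟨⟨hd0, hdS, hdT, hdO⟩, e, he⟩ := id hd
  obtain ⟨hfin, hgal, hdeg, hTsp, h2sp, hram⟩ := id htw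
  have hloc : ∀ P ∈ S, ∀ (L : Type) [Field L] (O : ValuationSubring L) (ι : E →+* L),
      AbvV E (vP K P) L O ι → Loc L O (ι (algebraMap K E (algebraMap (𝓞 K) K (ϖ P)))) := by
    intro P hP L _ O ι hC
    exact (hSPC K P (ϖ P) (h2S P hP) (hϖ P).1 (hϖ P).2 E L O ι hC (hTsp P (hS hP))).loc
  obtain ⟨hm1, hm2, hm3⟩ := hE2M K E h2sp D Y hok f hfF
  obtain ⟨m, hm⟩ := hdeg
  -- the classes over `K`
  obtain ⟨e0, he0⟩ := hSGK (𝓞 K) K f d hfm hd0
  have hK := ncard_le_equiv (A := SelG (fk K (f.scaleRoots d)))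
    (B := ClP (fk K f) {α | IsCoprime α (fk K f) ∧ NSq (fk K f) α ∧
      α.map (algebraMap K E) ∈ WWN (K := K) E f ϖ S D.T'}) e0.symm (by
    rintro ξ ⟨u, hu, α, ⟨hα, hNα, hαW⟩, hαu⟩
    rw [← hu, Equiv.symm_symm]
    exact (he0 u α hαu).2 ⟨hNα, down hIRU hTAK hTKL hSEL hSPC hUNC hEXC hUDA hUDB hE2I D Y hok f
      hf ϖ hϖ S hS d hd E htw α hα hNα hαW⟩) hs
  obtain ⟨h3, h4⟩ := galc m K E two_ne_zero hfin hgal hm (fk K f) (hfm.map _) hfi
    (by rw [hfm.natDegree_map]; exact hodd) (WWN (K := K) E f ϖ S D.T')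
    (fun p hp => ⟨hp.1.1, hp.1.2.1⟩)
    (fun p hp q hq => ⟨Z22.mul_mem hCLA hTYM hTYQ uslm le_rfl hfm hloc p hp.1 q hq.1,
      hm1 p q hp.2 hq.2⟩)
    (fun p hp q s hs hd => ⟨Z22.sq_mem hCLA hTYS hTYQ uslm le_rfl hfm hloc p hp.1 q s hs hd,
      hm2 p q s hs hd hp.2⟩)
    (fun p hp σ => ⟨Z22.gal_mem hfm p hp.1 σ, hm3 p σ hp.2⟩) hK.1
  -- the classes over `E`
  obtain ⟨δ, hδ⟩ : ∃ δ : E, δ = algebraMap K E (algebraMap (𝓞 K) K d) := ⟨_, rfl⟩
  have hδ0 : δ ≠ 0 := by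
    rw [hδ]
    exact (map_ne_zero (algebraMap K E)).2
      ((map_ne_zero_iff _ (IsFractionRing.injective (𝓞 K) K)).2 hd0)
  have hfK : fkE K E (f.scaleRoots d) = (fkE K E f).scaleRoots δ := by
    have h1 : fk K (f.scaleRoots d) = (fk K f).scaleRoots (algebraMap (𝓞 K) K d) := by
      refine map_scaleRoots f d _ ?_
      rw [hfm.leadingCoeff, map_one]
      exact one_ne_zero
    show (fk K (f.scaleRoots d)).map (algebraMap K E) = _
    rw [h1, hδ]
    refine map_scaleRoots (fk K f) _ _ ?_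
    have hm : (fk K f).Monic := hfm.map _
    rw [hm.leadingCoeff, map_one]
    exact one_ne_zero
  have hfE : (fkE K E f).Monic := (hfm.map _).map _
  obtain ⟨e1, he1⟩ := sgE hSGK E (fkE K E f) δ hfE hδ0
  have hE := ncard_le_equiv (A := ClP (fkE K E f) (WWN (K := K) E f ϖ S D.T'))
    (B := SelG ((fkE K E f).scaleRoots δ)) e1 (by
    intro ξ hξ
    obtain ⟨u, hu⟩ := QuotientGroup.mk_surjective (e1.symm ξ)
    obtain ⟨p, hp⟩ := AdjoinRoot.mk_surjective (u : AdjoinRoot (fkE K E f))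
    rw [← hu]
    have h5 : e1 (QuotientGroup.mk u) = ξ := by rw [hu, Equiv.apply_symm_apply]
    obtain ⟨hNp, hLS⟩ := (he1 u p hp).1 (by rw [h5]; exact hξ)
    have hpc : IsCoprime p (fkE K E f) := coprime_of_unit hp.symm
    have hLS' : ∀ (L : Type) [Field L] (O : ValuationSubring L) (ι : E →+* L), Cpl E L O ι →
        LSDEK (K := K) ι d f p := by
      intro L _ O ι hC
      obtain ⟨u', w, s, a1, a2, a3, a4⟩ := hLS L O ι hC
      rw [← hfK] at a2 a3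
      rw [hδ] at a4
      exact ⟨u', w, s, a1, a2, a3, a4⟩
    refine ⟨u, rfl, p, ⟨On3n.sel_mem hSPC hUNC hLDA hLDB hfm hfn hsm (fun P _ => hϖ P) h2S h2T'
      (fun P hP => hTsp P (hS hP)) hdS
      (fun P hPS hPT' => by
        by_cases hPT : P ∈ D.T
        · exact hdT P hPT hPS
        · exact hdO P hPT hPT') p hpc hNp hLS', hE2T K E h2sp f d e p hfm he hLS'⟩, hp⟩) h3
  rw [hfK, hm]
  exact ⟨hE.1, hE.2.trans (h4.trans (Nat.pow_le_pow_left hK.2 _))⟩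

end Pool.RZT
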