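import Pool.Agent.H70.RZT.S2
import Pool.Agent.H78.RZT.EXDTN
import Pool.Agent.H80.PNF.EXZN

/-!
# RZT, row EXZTN: existence of data of trace zero, with `T` in a given infinite set
-/

set_option autoImplicit false

namespace Pool.RZT

open Polynomial NumberField IsDedekindDomain Pool.HYP Pool.TOW Pool.AVS Pool.T1 Pool.NF Pool.PRK
  Pool.PNF

theorem exztn (hE : EXDTNStmt) : EXZTNStmt := by
  classical
  intro K _ _ Q hQ T' hT' k b
  have hρ : ∀ P : HeightOneSpectrum (𝓞 K), ∃ γ : (𝓞 K)[X], OkP 3 P.asIdeal γ ∧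
      γ.coeff 2 ∈ P.asIdeal := fun P => exLiftCub80 (EXDN70.fin_quot K) P
  choose ρ hρ1 hρ2 using hρ
  obtain ⟨D, hD, hDT', hc, hb⟩ := hE K Q hQ T' hT' k b
  refine ⟨⟨D.T, T', fun P => (D.γ P).coeff 1, D.γ, ρ⟩, ⟨?_, hD.2.1, fun P _ => hρ1 P, hT'⟩, rfl,
    hc, hb, fun P hP => ?_, fun P hP => hρ2 P⟩
  · have h := hD.1
    rw [hDT'] at h
    exact h
  · have h7 := (hD.2.1 P hP).2.1
    have h8 : (D.γ P).coeff 2 = 1 := by
      rw [← h7]
      exact (hD.2.1 P hP).1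
    change ((X - C ((D.γ P).coeff 1)) * D.γ P).coeff 2 ∈ P.asIdeal
    rw [sub_mul, coeff_sub, show (2 : ℕ) = 1 + 1 from rfl, coeff_X_mul, coeff_C_mul,
      show (1 + 1 : ℕ) = 2 from rfl, h8, mul_one, sub_self]
    exact P.asIdeal.zero_mem

end Pool.RZT
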