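import Pool.Agent.H70.RZT.S
import Pool.Agent.H29.NF.POSN

/-!
# RZT, row POSTN: a positive proportion, from the parts
-/

set_option autoImplicit false

namespace Pool.RZT

open Polynomial NumberField IsDedekindDomain Pool.HYP Pool.TOW Pool.AVS Pool.T1 Pool.NF

theorem postn_core (K : Type) [Field K] [NumberField K] (hRAM : RAMNStmt) (hSPL : SPLNStmt)
    (hKKN : KKNStmt) (hTWS : TWSZNStmt) (hEXD : EXDTNStmt)
    (hIRR : IRRNStmt) (hTWF : TWFNStmt) (hALL : ALLNStmt) (hIRS : ZIRSStmt)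
    (A Ram : Finset (HeightOneSpectrum (𝓞 K)))
    (hden : DenN K A) (hbadn : BadN K) (cF : ℝ) (hF : FamLN K cF) (hone : OneTN K Ram)
    (E₀ : Type) [Field E₀] [Algebra K E₀] (hf0 : FiniteDimensional K E₀) (hg0 : IsGalois K E₀)
    (hd0 : ∃ m : ℕ, Module.finrank K E₀ = 2 ^ m)
    (hs2 : ∀ P : HeightOneSpectrum (𝓞 K), (2 : 𝓞 K) ∈ P.asIdeal → SplV E₀ (vP K P)) :
    ∃ T : Finset (HeightOneSpectrum (𝓞 K)), (∀ P ∈ T, SplV E₀ (vP K P)) ∧ PosTN K E₀ T := by
  classical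
  obtain ⟨V, hV⟩ := hRAM K E₀ hf0 hg0
  obtain ⟨B, hBV, hB⟩ := hTWS K V
  have h6 : Ideal.span {(6 : 𝓞 K)} ≠ ⊥ := by
    rw [Ne, Ideal.span_singleton_eq_bot]
    norm_num
  have hZfin := Ideal.finite_factors h6
  set Z : Finset (HeightOneSpectrum (𝓞 K)) := hZfin.toFinset with hZ
  have hZ' : ∀ P : HeightOneSpectrum (𝓞 K), (2 : 𝓞 K) ∈ P.asIdeal ∨ (3 : 𝓞 K) ∈ P.asIdeal →
      P ∈ Z := by
    intro P hP
    rw [hZ, Set.Finite.mem_toFinset, Set.mem_ofPred_eq, Ideal.dvd_iff_le,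
      Ideal.span_singleton_le_iff_mem]
    rcases hP with h | h
    · have := Ideal.mul_mem_left P.asIdeal 3 h
      norm_num at this
      exact this
    · have := Ideal.mul_mem_left P.asIdeal 2 h
      norm_num at this
      exact this
  set T' : Finset (HeightOneSpectrum (𝓞 K)) := A ∪ (Ram ∪ (B ∪ (V ∪ Z))) with hT'
  have hAT : A ⊆ T' := fun x hx => by rw [hT']; exact Finset.mem_union_left _ hx
  have hRT : Ram ⊆ T' := fun x hx => by
    rw [hT']; exact Finset.mem_union_right _ (Finset.mem_union_left _ hx)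
  have hBT : B ⊆ T' := fun x hx => by
    rw [hT']
    exact Finset.mem_union_right _ (Finset.mem_union_right _ (Finset.mem_union_left _ hx))
  have hVT : V ⊆ T' := fun x hx => by
    rw [hT']
    exact Finset.mem_union_right _ (Finset.mem_union_right _ (Finset.mem_union_right _
      (Finset.mem_union_left _ hx)))
  have hZT : Z ⊆ T' := fun x hx => by
    rw [hT']
    exact Finset.mem_union_right _ (Finset.mem_union_right _ (Finset.mem_union_right _
      (Finset.mem_union_right _ hx)))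
  obtain ⟨k₀, b, hbad⟩ := hbadn T'
  obtain ⟨D, hD, hDT, hcard, hb'⟩ := hEXD K {P | SplV E₀ (vP K P)}
    (fun A => by
      obtain ⟨P, h1, h2⟩ := hSPL K E₀ hf0 hg0 A
      exact ⟨P, h2, h1⟩) T' (fun P hP => hZT (hZ' P hP)) k₀ (b + 6 * k₀)
  have hb : ∀ P ∈ D.T, b + 6 * k₀ < Nm P := fun P hP => (hb' P hP).1
  have hDs : ∀ P ∈ D.T, SplV E₀ (vP K P) := fun P hP => (hb' P hP).2
  obtain ⟨Y₁, h1⟩ := hbad D hD hDT hcard.ge (fun P hP => by
    have := hb P hP
    rw [hcard]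
    constructor <;> omega)
  obtain ⟨Y₂, h2⟩ := hden D hD (by rw [hDT]; exact hAT)
  obtain ⟨Y₃, h3⟩ := hF D hD
  obtain ⟨E, hE1, hE⟩ := hB T' hBT hVT (fun P hP => hZT (hZ' P (Or.inl hP))) D.T
    (by rw [← hDT]; exact hD.1)
  choose! dS hdS1 hdS2 hdS3 using hE
  obtain ⟨c, C, hc, hC, hall⟩ := hALL K
  set n : ℕ := 6 * dg K with hn
  set W : ℝ := (∏ P ∈ D.T, (Nm P : ℝ) ^ 3) * ∏ P ∈ D.T', (Nm P : ℝ) ^ 3 with hW
  have hW0 : 0 ≤ W := by positivity
  set k : ℝ := (D.T.powerset.card : ℝ) with hk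
  have hk0 : 0 ≤ k := Nat.cast_nonneg _
  have hEr : (1 : ℝ) ≤ E := by exact_mod_cast hE1
  set M : ℝ := C * ((4 * E : ℝ) ^ n * (|cF| * (2 * k * W))) + 1 with hM
  have hM0 : 0 < M := by positivity
  refine ⟨D.T, hDs, M⁻¹, by positivity, 2 * E * ((max (max Y₁ Y₂) (max Y₃ 1) : ℕ) : ℝ),
    fun Y hY => ?_⟩
  set Y' : ℕ := ⌊Y / (2 * E)⌋₊ with hY'
  have hE2 : (0 : ℝ) < 2 * E := by positivity
  have hYm : max (max Y₁ Y₂) (max Y₃ 1) ≤ Y' := by
    rw [hY']
    refine Nat.le_floor ?_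
    rw [le_div_iff₀ hE2, mul_comm]
    exact hY
  have hy1 : Y₁ ≤ Y' := by omega
  have hy2 : Y₂ ≤ Y' := by omega
  have hy3 : Y₃ ≤ Y' := by omega
  have hy4 : 1 ≤ Y' := by omega
  have hy4r : (1 : ℝ) ≤ Y' := by exact_mod_cast hy4
  have hYpos : 0 ≤ Y / (2 * E) := by
    by_contra hcon
    have : Y' = 0 := by
      rw [hY']
      exact Nat.floor_of_nonpos (by linarith)
    omega
  have hY0 : 0 ≤ Y := by
    have := mul_nonneg hYpos hE2.le
    rwa [div_mul_cancel₀ _ hE2.ne'] at this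
  have hle : (2 * E * Y' : ℝ) ≤ Y := by
    have := Nat.floor_le hYpos
    rw [← hY', le_div_iff₀ hE2] at this
    linarith
  have hge : Y ≤ 4 * E * Y' := by
    have := Nat.lt_floor_add_one (Y / (2 * E))
    rw [← hY', div_lt_iff₀ hE2] at this
    nlinarith
  have hYone : 1 ≤ Y := by
    refine le_trans ?_ hle
    nlinarith
  obtain ⟨hfin, hlo, hup, -, -⟩ := hall Y hYone
  have hposA : 0 < (AllN K Y).ncard := by
    have h5 : (0 : ℝ) < (AllN K Y).ncard := lt_of_lt_of_le (by positivity) hlo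
    exact_mod_cast h5
  refine ⟨hfin, hposA, ?_⟩
  set Bs : Set (𝓞 K)[X] := {f ∈ AllN K Y | Irreducible (fk K f) ∧ SelK (fk K f) ∧
    SelK (fkE K E₀ f) ∧ TowN K D.T f} with hBs
  have hBfin : Bs.Finite := hfin.subset fun f hf => hf.1
  have hAfin : (FamN D Y').Finite := (h3 Y' hy3).1
  have hdT : ∀ S ⊆ D.T, TwiN D.T D.T' S (dS S) := fun S hS => by
    have := hdS2 S hS
    rwa [← hDT] at this
  have hkey : (FamN D Y').ncard ≤ 2 * D.T.powerset.card * Bs.ncard := by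
    refine pigeon (FamN D Y') hAfin Bs hBfin D.T.powerset
      (fun S f => f.scaleRoots (dS S)) ?_ {f | Bad K D.T f} {f | ¬ Smooth f}
      (h1 Y' hy1) (h2 Y' hy2) ?_
    · intro S hS
      exact twjk (𝓞 K) (dS S) (hdT S (Finset.mem_powerset.1 hS)).1.1
    · intro f hf hnb hns
      have hsm : Smooth f := by
        by_contra hcon
        exact hns hcon
      obtain ⟨S, hS, htow⟩ := hone D Y' hD hy4 (by rw [hDT]; exact hRT) f hf hsm hnb
      have hd2 := hdT S hS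
      have hirr := hIRR K D Y' hD f hf
      have htw : TowN K D.T (f.scaleRoots (dS S)) := htow _ hd2
      refine ⟨S, Finset.mem_powerset.2 hS, ?_, ?_, ?_, ?_, htw⟩
      · exact alln_mono (by positivity) hle (hTWF K D Y' E (dS S) hE1 (hdS1 S hS) f hf)
      · exact irr_scale hd2.1.1 hf.1 hirr
      · obtain ⟨h5, h7⟩ := hKKN K D.T (f.scaleRoots (dS S))
        have h8 := htw K h5
        rwa [h7] at h8
      · refine htw E₀ ⟨hf0, hg0, hd0, hDs, hs2, fun P => ?_⟩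
        by_cases hPV : P ∈ V
        · right
          have hPT' : P ∈ D.T' := by rw [hDT]; exact hVT hPV
          have hirrP : Irreducible (md P.asIdeal f) := by
            have h5 : md P.asIdeal f = md P.asIdeal (D.ρ P) := by
              have h6 := hf.2.2.2.2 P hPT'
              have h7 : md P.asIdeal (f - D.ρ P) = 0 := by
                ext i
                rw [coeff_map, coeff_zero]
                exact Ideal.Quotient.eq_zero_iff_mem.2 (h6 i)
              have h8 : md P.asIdeal (f - D.ρ P) = md P.asIdeal f - md P.asIdeal (D.ρ P) :=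
                Polynomial.map_sub _
              exact sub_eq_zero.1 (h8.symm.trans h7)
            rw [h5]
            exact (hD.2.2.1 P hPT').2.2
          exact (hIRS (𝓞 K) P (dS S) f hf.1 (by rw [hf.2.1]; omega)).2 (hdS3 S hS P hPV)
            hirrP
        · exact Or.inl (hV P hPV)
  have hFW := (h3 Y' hy3).2
  have hkr : ((FamN D Y').ncard : ℝ) ≤ 2 * k * Bs.ncard := by
    rw [hk]
    exact_mod_cast hkey
  have h7 : (Y' : ℝ) ^ n ≤ |cF| * (2 * k * W) * Bs.ncard := by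
    calc (Y' : ℝ) ^ n ≤ cF * ((FamN D Y').ncard * (∏ P ∈ D.T, (Nm P : ℝ) ^ 3) *
          ∏ P ∈ D.T', (Nm P : ℝ) ^ 3) := hFW
      _ = cF * ((FamN D Y').ncard * W) := by rw [hW]; ring
      _ ≤ |cF| * ((FamN D Y').ncard * W) :=
          mul_le_mul_of_nonneg_right (le_abs_self _) (by positivity)
      _ ≤ |cF| * ((2 * k * Bs.ncard) * W) :=
          mul_le_mul_of_nonneg_left (mul_le_mul_of_nonneg_right hkr hW0) (abs_nonneg _)
      _ = _ := by ring
  have h8 : ((AllN K Y).ncard : ℝ) ≤ M * Bs.ncard := by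
    calc ((AllN K Y).ncard : ℝ) ≤ C * Y ^ n := hup
      _ ≤ C * (4 * E * Y') ^ n :=
          mul_le_mul_of_nonneg_left (pow_le_pow_left₀ hY0 hge n) hC.le
      _ = C * ((4 * E : ℝ) ^ n * (Y' : ℝ) ^ n) := by rw [mul_pow]
      _ ≤ C * ((4 * E : ℝ) ^ n * (|cF| * (2 * k * W) * Bs.ncard)) :=
          mul_le_mul_of_nonneg_left (mul_le_mul_of_nonneg_left h7 (by positivity)) hC.le
      _ = C * ((4 * E : ℝ) ^ n * (|cF| * (2 * k * W))) * Bs.ncard := by ring
      _ ≤ M * Bs.ncard := mul_le_mul_of_nonneg_right (by rw [hM]; linarith) (Nat.cast_nonneg _)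
  rw [inv_mul_le_iff₀ hM0]
  exact h8

theorem postn (hRAM : RAMNStmt) (hSPL : SPLNStmt) (hKKN : KKNStmt) (hTWS : TWSZNStmt)
    (hEXD : EXDTNStmt) (hIRR : IRRNStmt) (hTWF : TWFNStmt) (hALL : ALLNStmt) (hIRS : ZIRSStmt) :
    POSTNStmt := by
  intro K _ _ hden hbad hF hone E₀ _ _ hf0 hg0 hd0 hs2
  obtain ⟨A, hA⟩ := hden
  obtain ⟨c, hc⟩ := hF
  obtain ⟨Ram, hR⟩ := hone
  exact postn_core K hRAM hSPL hKKN hTWS hEXD hIRR hTWF hALL hIRS A Ram hA hbad c hc hR E₀ hf0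
    hg0 hd0 hs2

end Pool.RZT
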