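import Pool.Agent.H70.RZT.S

/-!
# RZT, row SPCN: the completions at a prime which splits completely
-/

set_option autoImplicit false

namespace Pool.RZT

open Polynomial NumberField IsDedekindDomain Pool.HYP Pool.TOW Pool.AVS Pool.T1 Pool.NF

theorem spcn (hUNC : UNCNStmt) (hSPU : SPUNStmt) (hS : SPC2Stmt) : SPCNStmt := by
  intro K _ _ P ϖ h2 h3 h4 E _ _ L _ O' ι hA hs
  have h5 := hUNC K P ϖ h2 h3 h4 E L O' ι hA (hSPU K E P hs)
  exact ⟨h5.loc, h5.int, h5.mem, (hS K P E L O' ι hA).1 hs⟩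

end Pool.RZT
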