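import Pool.Agent.H70.RZT.S
import Pool.Agent.H87.NF.RAY

/-!
# RZT, row TWSZN: the twisting elements, prime to the primes of `Z`
-/

set_option autoImplicit false

namespace Pool.RZT

open Polynomial NumberField IsDedekindDomain Pool.HYP Pool.TOW Pool.AVS Pool.T1 Pool.NF

/-- An element in the prime `P` and in no other prime. -/
theorem twszn_gen (K : Type) [Field K] [NumberField K] (P : HeightOneSpectrum (𝓞 K)) :
    ∃ z : 𝓞 K, z ≠ 0 ∧ z ∈ P.asIdeal ∧
      ∀ P' : HeightOneSpectrum (𝓞 K), z ∈ P'.asIdeal → P' = P := by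
  classical
  set h := Fintype.card (ClassGroup (𝓞 K)) with hh
  have hh0 : h ≠ 0 := Fintype.card_ne_zero
  let Pn : nonZeroDivisors (Ideal (𝓞 K)) :=
    ⟨P.asIdeal, mem_nonZeroDivisors_iff_ne_zero.2 P.ne_bot⟩
  have h1 : ClassGroup.mk0 (Pn ^ h) = 1 := by
    rw [map_pow, hh]
    exact pow_card_eq_one
  obtain ⟨z, hz⟩ := ((ClassGroup.mk0_eq_one_iff (Pn ^ h).2).1 h1).principal
  have hz' : P.asIdeal ^ h = Ideal.span {z} := hz
  refine ⟨z, ?_, ?_, ?_⟩
  · rintro rfl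
    have h2 : P.asIdeal ^ h = ⊥ := by rw [hz']; simp
    exact pow_ne_zero h P.ne_bot h2
  · have h2 : z ∈ P.asIdeal ^ h := by
      rw [hz']
      exact Ideal.mem_span_singleton_self z
    exact Ideal.pow_le_self hh0 h2
  · intro P' hP'
    have h2 : P.asIdeal ^ h ≤ P'.asIdeal := by
      rw [hz', Ideal.span_singleton_le_iff_mem]
      exact hP'
    have h3 : P.asIdeal ≤ P'.asIdeal := P'.isPrime.le_of_pow_le h2
    have h4 : P.asIdeal = P'.asIdeal := P.isMaximal.eq_of_le P'.isPrime.ne_top h3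
    exact HeightOneSpectrum.ext h4.symm

theorem twszn : TWSZNStmt := by
  classical
  intro K _ _ Z
  choose z hz0 hzP hzo using twszn_gen K
  set m : 𝓞 K := 8 * ∏ P ∈ Z, z P with hm
  have hm0 : m ≠ 0 := mul_ne_zero (by norm_num) (Finset.prod_ne_zero_iff.2 fun P _ => hz0 P)
  have hmZ : ∀ P ∈ Z, m ∈ P.asIdeal := fun P hP => by
    rw [hm]
    refine P.asIdeal.mul_mem_left _ ?_
    obtain ⟨w, hw⟩ := Finset.dvd_prod_of_mem z hP
    rw [hw]
    exact P.asIdeal.mul_mem_right _ (hzP P)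
  have hmo : ∀ P : HeightOneSpectrum (𝓞 K), m ∈ P.asIdeal → (2 : 𝓞 K) ∈ P.asIdeal ∨ P ∈ Z := by
    intro P hP
    rw [hm] at hP
    rcases P.isPrime.mem_or_mem hP with h1 | h1
    · left
      have h3 : (2 : 𝓞 K) ^ 3 ∈ P.asIdeal := by
        have : (2 : 𝓞 K) ^ 3 = 8 := by norm_num
        rw [this]
        exact h1
      exact P.isPrime.mem_of_pow_mem 3 h3
    · right
      obtain ⟨Q, hQ, h2⟩ := (P.isPrime.prod_mem_iff).1 h1
      rw [hzo Q P h2]
      exact hQ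
  obtain ⟨B, hB⟩ := ray K m hm0
  refine ⟨B, ?_, fun T' hBT hZT h2 T hdisj => ?_⟩
  · rw [Finset.disjoint_left]
    intro P hPB hPZ
    exact hB.1 P hPB (hmZ P hPZ)
  obtain ⟨E, hE, hd⟩ := twi K m B T' T hB hBT hdisj (fun P hP h8 => by
    rcases hmo P h8 with h4 | h4
    · exact Finset.disjoint_left.1 hdisj hP (h2 P h4)
    · exact Finset.disjoint_left.1 hdisj hP (hZT h4))
  have hE' : E ≤ (⌈E⌉₊ : ℝ) := Nat.le_ceil E
  refine ⟨⌈E⌉₊, ?_, fun S hS => ?_⟩
  · have : (1 : ℝ) ≤ (⌈E⌉₊ : ℝ) := hE.trans hE'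
    exact_mod_cast this
  · obtain ⟨d, h3, h4, h5⟩ := hd S hS
    obtain ⟨e, he⟩ := Ideal.mem_span_singleton.1 h3
    refine ⟨d, fun σ => (h5 σ).trans hE', ⟨h4, (∏ P ∈ Z, z P) * e, ?_⟩, fun P hP hdP => ?_⟩
    · have : d = 1 + m * e := by rw [← he]; ring
      rw [this, hm]
      ring
    · have h6 : d - 1 ∈ P.asIdeal := by
        rw [he]
        exact P.asIdeal.mul_mem_right _ (hmZ P hP)
      have h7 : (1 : 𝓞 K) ∈ P.asIdeal := by
        have := P.asIdeal.sub_mem hdP h6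
        simpa using this
      exact P.isPrime.ne_top ((Ideal.eq_top_iff_one _).2 h7)

end Pool.RZT
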