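import Pool.Agent.H70.RZT.MAINRZT
import Pool.Agent.H70.RZT.POSTN
import Pool.Agent.H70.RZT.TWSZN
import Pool.Agent.H70.RZT.SPCN
import Pool.Agent.H70.RZT.INHN
import Pool.Agent.H70.RZT.CTRN
import Pool.Agent.H70.RZT.EXZTN
import Pool.Agent.H12.RZT.TYIN
import Pool.Agent.H2.RZT.EXCN
import Pool.Agent.H2.RZT.RAMN
import Pool.Agent.H2.RZT.ON3N
import Pool.Agent.H22.RZT.SPUN
import Pool.Agent.H22.RZT.E2M
import Pool.Agent.H25.RZT.LDAN
import Pool.Agent.H3.RZT.SPLN
import Pool.Agent.H34.RZT.UDAN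
import Pool.Agent.H42.RZT.E2T
import Pool.Agent.H49.RZT.UDBN
import Pool.Agent.H50.RZT.ABVN
import Pool.Agent.H52.RZT.FINTN
import Pool.Agent.H52.RZT.LDBN
import Pool.Agent.H54.RZT.KKN
import Pool.Agent.H67.RZT.UNCN
import Pool.Agent.H78.RZT.EXDTN
import Pool.Agent.H82.RZT.SPC2
import Pool.Agent.H97.RZT.ZERT
import Pool.Agent.H40.T1.ZVAL
import Pool.Agent.H40.T1.ZTWS
import Pool.Agent.H44.T1.ZIRS
import Pool.Agent.H14.PNF.All

/-!
# RZT: assembly
-/

set_option autoImplicit false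

namespace Pool.RZT.All

open Pool.RZT Pool.NF Pool.T1 NumberField IsDedekindDomain

theorem h_uncn : UNCNStmt := uncn
theorem h_spcn : SPCNStmt := spcn uncn spun spc2
theorem h_excn : EXCNStmt := excn zval
theorem h_ldan : LDANStmt := ldan Pool.T1.All.h_evn udan
theorem h_ldbn : LDBNStmt := ldbn Pool.T1.All.h_tw2
theorem h_e2t : E2TStmt := e2t spc2 sqd
theorem h_e2m : E2MStmt := e2m spc2 irl2 mul
theorem h_e2i : E2IStmt := e2i h_excn spc2 abvn
theorem h_on3n : ON3NStmt :=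
  on3n linb cmpn inok irun usmk Pool.NF.H19.irrn (l2m irl2 mul) (l2d irl2 iso) h_spcn h_uncn
    h_excn tyin udan udbn h_ldan h_ldbn h_e2t h_e2m h_e2i ztws zirs
theorem h_postn : POSTNStmt :=
  postn ramn spln kkn twszn (exdtn prz) Pool.NF.H19.irrn twfn alln zirs
theorem h_zertn : ZERTNStmt := zertn alln sqsn zirs

/-- RZT: for every extension `E₀` a positive proportion of all elliptic curves over the number field
`K` has trivial 2-Selmer group over `K`, `E₀` and infinitely many other extensions. -/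
theorem h_main : MainRZT :=
  mainrzt h_postn h_zertn fintn h_on3n Pool.NF.All.h_denn
    (fun K _ _ => by
      obtain ⟨B, hB⟩ := Pool.NF.All.h_keyn K (Pool.NF.H19.irrn K)
      obtain ⟨c, -, hc⟩ := Pool.NF.All.h_famln K
      exact badn nst Pool.NF.All.h_ncnt K ⟨B, hB B le_rfl⟩ ⟨c, hc⟩ (Pool.NF.H19.irrn K))
    (fun K _ _ => by
      obtain ⟨c, -, hc⟩ := Pool.NF.All.h_famln K
      exact ⟨c, hc⟩)
    (fun K _ _ => recan Pool.NF.All.h_rcpn usg (lsq lsa) qsl qsk vqb Pool.T1.All.h_tym cmp2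
      Iso25.iso2 lsr K)

/-- CTRN: the 2-Selmer groups of the twists over the extensions. -/
theorem h_ctrn : CTRNStmt :=
  ctrn irun Pool.NF.H19.irrn Pool.PNF.All.p_takn Pool.PRK.tklk Pool.PNF.All.p_seln Pool.PRK.sgk
    h_spcn h_uncn h_excn udan udbn h_ldan h_ldbn h_e2t h_e2m h_e2i

/-- INHN: trivial 2-Selmer groups of the twists over the extensions. -/
theorem h_inhn : INHNStmt :=
  inhn irun Pool.NF.H19.irrn Pool.PNF.All.p_takn Pool.PRK.tklk Pool.PNF.All.p_seln Pool.PRK.sgk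
    h_spcn h_uncn h_excn udan udbn h_ldan h_ldbn h_e2t h_e2m h_e2i ztws

end Pool.RZT.All
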