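import Pool.Agent.H70.RZT.S
import Pool.Agent.H14.PNF.S6

/-!
# RZT: the Selmer groups of the twists over the extensions (statements)

`Tw K T f E`: `E` is a finite Galois extension of `K` of degree `2^m`, the primes of `T` and the primes
above `2` split completely in `E`, and every other prime is unramified in `E` or `f` is irreducible
modulo this prime.
-/

set_option autoImplicit false

namespace Pool.RZT

open Polynomial Matrix NumberField IsDedekindDomain Pool.HYP Pool.TOW Pool.AVS Pool.T1 Pool.NF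
  Pool.PRK Pool.PNF

/-- INHN: if the 2-Selmer group of the twist is trivial over `K`, then it is trivial over the
extensions of `K`. -/
def INHNStmt : Prop :=
  ∀ (K : Type) [Field K] [NumberField K] (D : DatN K) (Y : ℕ), D.Ok → 1 ≤ Y →
    ∀ f ∈ FamSN D Y, ∀ S ⊆ D.T, ∀ d : 𝓞 K, TwiN D.T D.T' S d →
    (SelG (fk K (f.scaleRoots d))).Subsingleton → ∀ (E : Type) [Field E] [Algebra K E],
    Tw K D.T f E → SelK (fkE K E (f.scaleRoots d))

/-- CTRN: the 2-Selmer group of the twist over an extension `E` of degree `n` has at most `s^n`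
elements, if the one over `K` has `s` elements. -/
def CTRNStmt : Prop :=
  ∀ (K : Type) [Field K] [NumberField K] (D : DatN K) (Y : ℕ), D.Ok →
    ∀ f ∈ FamSN D Y, ∀ S ⊆ D.T, ∀ d : 𝓞 K, TwiN D.T D.T' S d →
    (SelG (fk K (f.scaleRoots d))).Finite → ∀ (E : Type) [Field E] [Algebra K E],
    Tw K D.T f E → (SelG (fkE K E (f.scaleRoots d))).Finite ∧
      (SelG (fkE K E (f.scaleRoots d))).ncard ≤
        (SelG (fk K (f.scaleRoots d))).ncard ^ Module.finrank K E

/-- EXZTN: existence of data of trace zero, with `T` in a given infinite set. -/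
def EXZTNStmt : Prop :=
  ∀ (K : Type) [Field K] [NumberField K] (Q : Set (HeightOneSpectrum (𝓞 K))),
    (∀ A : Finset (HeightOneSpectrum (𝓞 K)), ∃ P ∈ Q, P ∉ A) →
    ∀ T' : Finset (HeightOneSpectrum (𝓞 K)),
    (∀ P : HeightOneSpectrum (𝓞 K), (2 : 𝓞 K) ∈ P.asIdeal ∨ (3 : 𝓞 K) ∈ P.asIdeal → P ∈ T') →
    ∀ k b : ℕ, ∃ D : DatN K, D.Ok ∧ D.T' = T' ∧ D.T.card = k ∧ (∀ P ∈ D.T, b < Nm P ∧ P ∈ Q) ∧
      Tr0N D

end Pool.RZT
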