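import Pool.Agent.H70.RZT.S

/-!
# RZT, row MAINRZT: the main theorem, from the parts
-/

set_option autoImplicit false

namespace Pool.RZT

open Polynomial NumberField IsDedekindDomain Pool.HYP Pool.TOW Pool.AVS Pool.T1 Pool.NF

theorem mainrzt : MAINRZTStmt := by
  intro hPOS hZER hFIN hONE hDEN hBAD hFAM hREC K _ _ E₀ _ _ hf0 hg0 hd0 hs2
  obtain ⟨Ram, hRam⟩ := hREC K
  obtain ⟨T, hTs, hT⟩ := hPOS K (hDEN K) (hBAD K) (hFAM K) ⟨Ram, hONE K Ram hRam⟩ E₀ hf0 hg0 hd0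
    hs2
  obtain ⟨δ₁, hδ₁, Y₁, h1⟩ := hT
  obtain ⟨δ₂, hδ₂, Y₂, h2⟩ := hZER K E₀ T ⟨δ₁, hδ₁, Y₁, h1⟩
  have hK : ∀ f : (𝓞 K)[X], fkE K K f = fk K f := fun f => by
    unfold fkE
    rw [Algebra.algebraMap_self, Polynomial.map_id]
  have hfo : ∀ (Y : ℝ) (f : (𝓞 K)[X]), f ∈ AllN K Y → Irreducible (fk K f) → SelK (fk K f) →
      SelK (fkE K E₀ f) → TowN K T f → RkZ (fk K f) ∧ RkZ (fkE K E₀ f) ∧
        ∀ (E : Type) [Field E] [Algebra K E], Tw K T f E → RkZ (fkE K E f) := by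
    intro Y f hf hi h3 h4 h5
    refine ⟨⟨h3, ?_⟩, ⟨h4, hFIN K E₀ hf0 hd0 f hf.1 hf.2.1 hi h4⟩, fun E _ _ hE => ?_⟩
    · have h6 := hFIN K K inferInstance ⟨0, by simp⟩ f hf.1 hf.2.1 hi (by rw [hK]; exact h3)
      rwa [hK] at h6
    · exact ⟨h5 E hE, hFIN K E hE.1 hE.2.2.1 f hf.1 hf.2.1 hi (h5 E hE)⟩
  refine ⟨T, hTs, min δ₁ δ₂, lt_min hδ₁ hδ₂, max Y₁ Y₂, fun Y hY => ?_⟩
  obtain ⟨hfin, hp, h3⟩ := h1 Y ((le_max_left _ _).trans hY)
  obtain ⟨hp', h4⟩ := h2 Y ((le_max_right _ _).trans hY)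
  refine ⟨hfin, hp, ?_, hp', ?_⟩
  · calc min δ₁ δ₂ * (AllN K Y).ncard ≤ δ₁ * (AllN K Y).ncard :=
          mul_le_mul_of_nonneg_right (min_le_left _ _) (Nat.cast_nonneg _)
      _ ≤ _ := h3
      _ ≤ _ := by
          have : {f ∈ AllN K Y | Irreducible (fk K f) ∧ SelK (fk K f) ∧ SelK (fkE K E₀ f) ∧
              TowN K T f}.ncard ≤
              {f ∈ AllN K Y | Irreducible (fk K f) ∧ RkZ (fk K f) ∧ RkZ (fkE K E₀ f) ∧
                ∀ (E : Type) [Field E] [Algebra K E], Tw K T f E → RkZ (fkE K E f)}.ncard :=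
            Set.ncard_le_ncard (fun f hf => ⟨hf.1, hf.2.1,
              hfo Y f hf.1 hf.2.1 hf.2.2.1 hf.2.2.2.1 hf.2.2.2.2⟩)
              (hfin.subset fun f hf => hf.1)
          exact_mod_cast this
  · calc min δ₁ δ₂ * {f ∈ AllN K Y | f.coeff 2 = 0}.ncard ≤
          δ₂ * {f ∈ AllN K Y | f.coeff 2 = 0}.ncard :=
          mul_le_mul_of_nonneg_right (min_le_right _ _) (Nat.cast_nonneg _)
      _ ≤ _ := h4
      _ ≤ _ := by
          have : {f ∈ AllN K Y | f.coeff 2 = 0 ∧ Irreducible (fk K f) ∧ SelK (fk K f) ∧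
              SelK (fkE K E₀ f) ∧ TowN K T f}.ncard ≤
              {f ∈ AllN K Y | f.coeff 2 = 0 ∧ Irreducible (fk K f) ∧ RkZ (fk K f) ∧
                RkZ (fkE K E₀ f) ∧
                ∀ (E : Type) [Field E] [Algebra K E], Tw K T f E → RkZ (fkE K E f)}.ncard :=
            Set.ncard_le_ncard (fun f hf => ⟨hf.1, hf.2.1, hf.2.2.1,
              hfo Y f hf.1 hf.2.2.1 hf.2.2.2.1 hf.2.2.2.2.1 hf.2.2.2.2.2⟩)
              (hfin.subset fun f hf => hf.1)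
          exact_mod_cast this

end Pool.RZT
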