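import Pool.Agent.H5.HT.N1

/-!
# RZT: the number of the classes over a quadratic extension
-/

set_option autoImplicit false

namespace Pool.RZT

open Polynomial Pool.HT5

/-- The classes modulo squares of the elements of `S`. -/
def ClS {A : Type*} [CommRing A] (S : Set A) : Set (Aˣ ⧸ (powMonoidHom 2 : Aˣ →* Aˣ).range) :=
  {ξ | ∃ u : Aˣ, (QuotientGroup.mk u : Aˣ ⧸ (powMonoidHom 2 : Aˣ →* Aˣ).range) = ξ ∧ (u : A) ∈ S}

theorem cl_eq {A : Type*} [CommRing A] {u v : Aˣ} :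
    (QuotientGroup.mk u : Aˣ ⧸ (powMonoidHom 2 : Aˣ →* Aˣ).range) = QuotientGroup.mk v ↔
      ∃ g : Aˣ, v = u * g ^ 2 := by
  rw [QuotientGroup.eq]
  constructor
  · rintro ⟨g, hg⟩
    refine ⟨g, ?_⟩
    have : (powMonoidHom 2 : Aˣ →* Aˣ) g = g ^ 2 := rfl
    rw [this] at hg
    rw [hg]
    group
  · rintro ⟨g, rfl⟩
    refine ⟨g, ?_⟩
    have : (powMonoidHom 2 : Aˣ →* Aˣ) g = g ^ 2 := rfl
    rw [this]
    group

theorem cg1 {G : Type*} [CommGroup G] (u u' t t' g g' k : G)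
    (h : u' * t' * g' ^ 2 = u * t * g ^ 2 * k ^ 2) :
    t * t' = (u * u') * (g⁻¹ * g' * k⁻¹ * t' * u⁻¹) ^ 2 := by
  have h1 : (u * u') * (g⁻¹ * g' * k⁻¹ * t' * u⁻¹) ^ 2 =
      (u' * t' * g' ^ 2) * t' * u⁻¹ * (g ^ 2)⁻¹ * (k ^ 2)⁻¹ * (u * u⁻¹) := by
    simp only [pow_two, mul_inv]
    simp only [mul_assoc, mul_comm, mul_left_comm]
  have h2 : (u * t * g ^ 2 * k ^ 2) * t' * u⁻¹ * (g ^ 2)⁻¹ * (k ^ 2)⁻¹ * (u * u⁻¹) =
      t * t' * (u * u⁻¹) * (g ^ 2 * (g ^ 2)⁻¹) * (k ^ 2 * (k ^ 2)⁻¹) * (u * u⁻¹) := by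
    simp only [mul_assoc, mul_comm, mul_left_comm]
  rw [h1, h, h2, mul_inv_cancel, mul_inv_cancel, mul_inv_cancel, mul_one, mul_one, mul_one, mul_one]

theorem cg2 {G : Type*} [CommGroup G] (u u' r g g' k : G)
    (h : u' * r * g' ^ 2 = u * r * g ^ 2 * k ^ 2) : u' = u * (g * k * g'⁻¹) ^ 2 := by
  have h1 : u * (g * k * g'⁻¹) ^ 2 = (u * r * g ^ 2 * k ^ 2) * (g' ^ 2)⁻¹ * r⁻¹ := by
    have : (u * r * g ^ 2 * k ^ 2) * (g' ^ 2)⁻¹ * r⁻¹ =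
        u * (g * k * g'⁻¹) ^ 2 * (r * r⁻¹) := by
      simp only [pow_two, mul_inv]
      simp only [mul_assoc, mul_comm, mul_left_comm]
    rw [this, mul_inv_cancel, mul_one]
  rw [h1, ← h]
  have : u' * r * g' ^ 2 * (g' ^ 2)⁻¹ * r⁻¹ = u' * (r * r⁻¹) * (g' ^ 2 * (g' ^ 2)⁻¹) := by
    simp only [mul_assoc, mul_comm, mul_left_comm]
  rw [this, mul_inv_cancel, mul_inv_cancel, mul_one, mul_one]

variable {K L : Type*} [Field K] [Field L] [Algebra K L]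

/-- The number of the classes over a quadratic extension. -/
theorem quadc (h2 : (2 : L) ≠ 0) (σ : L ≃ₐ[K] L) (hs : ∀ x, σ (σ x) = x)
    (hfix : ∀ x : L, σ x = x → ∃ y, algebraMap K L y = x) (θ : L) (hθ0 : θ ≠ 0) (hθ : σ θ = -θ)
    (f : K[X]) (hf : f.Monic) (hodd : Odd f.natDegree) (hirr : Irreducible (fL L f))
    (S : Set (AdjoinRoot (fL L f)))
    (hSn : ∀ u ∈ S, IsSquare (Algebra.norm L u)) (hSm : ∀ u ∈ S, ∀ v ∈ S, u * v ∈ S)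
    (hSq : ∀ u ∈ S, ∀ g : AdjoinRoot (fL L f), g ≠ 0 → u * g ^ 2 ∈ S)
    (hSs : ∀ u ∈ S, sg σ f u ∈ S)
    (hK : (ClS {a : AdjoinRoot f | IsSquare (Algebra.norm K a) ∧ io L f a ∈ S}).Finite) :
    (ClS S).Finite ∧ (ClS S).ncard ≤
      (ClS {a : AdjoinRoot f | IsSquare (Algebra.norm K a) ∧ io L f a ∈ S}).ncard ^ 2 := by
  classical
  have : Fact (Irreducible (fL L f)) := ⟨hirr⟩
  have hirrK : Irreducible f := by
    have := hirr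
    exact Polynomial.Monic.irreducible_of_irreducible_map (algebraMap K L) f hf this
  have : Fact (Irreducible f) := ⟨hirrK⟩
  set SK : Set (AdjoinRoot f) := {a | IsSquare (Algebra.norm K a) ∧ io L f a ∈ S} with hSK
  -- the map of the units
  let ι : (AdjoinRoot f)ˣ →* (AdjoinRoot (fL L f))ˣ := Units.map (io L f).toMonoidHom
  let τ : (AdjoinRoot (fL L f))ˣ →* (AdjoinRoot (fL L f))ˣ := Units.map (sg σ f).toMonoidHom
  have hι : ∀ a : (AdjoinRoot f)ˣ, ((ι a : (AdjoinRoot (fL L f))ˣ) : AdjoinRoot (fL L f)) =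
      io L f a := fun a => rfl
  have hτ : ∀ a : (AdjoinRoot (fL L f))ˣ, ((τ a : (AdjoinRoot (fL L f))ˣ) :
      AdjoinRoot (fL L f)) = sg σ f a := fun a => rfl
  have hττ : ∀ a, τ (τ a) = a := fun a => Units.ext (by rw [hτ, hτ, sg_sg σ hs])
  -- a fixed class comes from `K`
  have key : ∀ u : (AdjoinRoot (fL L f))ˣ, (u : AdjoinRoot (fL L f)) ∈ S →
      ∀ β : (AdjoinRoot (fL L f))ˣ, τ u = u * β ^ 2 →
      ∃ a : (AdjoinRoot f)ˣ, (a : AdjoinRoot f) ∈ SK ∧ ∃ g : (AdjoinRoot (fL L f))ˣ,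
        ι a = u * g ^ 2 := by
    intro u hu β hβ
    have hβ' : sg σ f (u : AdjoinRoot (fL L f)) = u * (β : AdjoinRoot (fL L f)) ^ 2 := by
      have := congrArg (fun x : (AdjoinRoot (fL L f))ˣ => (x : AdjoinRoot (fL L f))) hβ
      simpa [hτ] using this
    obtain ⟨a, ha0, han, g, hg0, hg⟩ := descent h2 σ hs hfix θ hθ0 hθ f hf hodd hirr u β
      u.ne_zero (hSn u hu) hβ'
    refine ⟨Units.mk0 a ha0, ⟨han, ?_⟩, Units.mk0 g hg0, ?_⟩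
    · change io L f a ∈ S
      rw [hg]
      exact hSq u hu g hg0
    · apply Units.ext
      rw [hι]
      simpa using hg
  -- the classes over `K`
  set M := ClS SK with hM
  -- `φ`: for every class the class of the norm comes from `K`
  have hA : ∀ ξ ∈ ClS S, ∃ (u : (AdjoinRoot (fL L f))ˣ) (a : (AdjoinRoot f)ˣ),
      QuotientGroup.mk u = ξ ∧ (u : AdjoinRoot (fL L f)) ∈ S ∧ (a : AdjoinRoot f) ∈ SK ∧
      ∃ g : (AdjoinRoot (fL L f))ˣ, ι a = (u * τ u) * g ^ 2 := by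
    rintro ξ ⟨u, hu, huS⟩
    obtain ⟨a, ha, g, hg⟩ := key (u * τ u) (by
      rw [Units.val_mul, hτ]
      exact hSm _ huS _ (hSs _ huS)) 1 (by
      rw [map_mul, hττ, one_pow, mul_one, mul_comm])
    exact ⟨u, a, hu, huS, ha, g, hg⟩
  choose! U A hU1 hU2 hA1 hA2 using hA
  -- the fibres
  have hB : ∀ ξ ∈ ClS S, ∀ ξ' ∈ ClS S,
      (QuotientGroup.mk (A ξ) : (AdjoinRoot f)ˣ ⧸ (powMonoidHom 2 :
        (AdjoinRoot f)ˣ →* (AdjoinRoot f)ˣ).range) = QuotientGroup.mk (A ξ') →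
      ∃ b : (AdjoinRoot f)ˣ, (b : AdjoinRoot f) ∈ SK ∧
        ∃ g : (AdjoinRoot (fL L f))ˣ, ι b = (U ξ * U ξ') * g ^ 2 := by
    intro ξ hξ ξ' hξ' h
    obtain ⟨k, hk⟩ := cl_eq.1 h
    obtain ⟨g, hg⟩ := hA2 ξ hξ
    obtain ⟨g', hg'⟩ := hA2 ξ' hξ'
    have h1 : U ξ' * τ (U ξ') * g' ^ 2 = U ξ * τ (U ξ) * g ^ 2 * (ι k) ^ 2 := by
      rw [← hg', hk, map_mul, map_pow, hg]
    -- `τ (U U') = U U' β²`
    have h2' : τ (U ξ * U ξ') = (U ξ * U ξ') * (g⁻¹ * g' * (ι k)⁻¹ * τ (U ξ') * (U ξ)⁻¹) ^ 2 := by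
      rw [map_mul]
      exact cg1 _ _ _ _ _ _ _ h1
    exact key (U ξ * U ξ') (by
      rw [Units.val_mul]
      exact hSm _ (hU2 ξ hξ) _ (hU2 ξ' hξ')) _ h2'
  choose! B hB1 hB2 using hB
  -- a representative of every fibre
  let rep : ((AdjoinRoot f)ˣ ⧸ (powMonoidHom 2 : (AdjoinRoot f)ˣ →* (AdjoinRoot f)ˣ).range) →
      ((AdjoinRoot (fL L f))ˣ ⧸ (powMonoidHom 2 : (AdjoinRoot (fL L f))ˣ →*
        (AdjoinRoot (fL L f))ˣ).range) := fun η =>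
    if h : ∃ ξ ∈ ClS S, QuotientGroup.mk (A ξ) = η then h.choose else 1
  have hrep : ∀ ξ ∈ ClS S, rep (QuotientGroup.mk (A ξ)) ∈ ClS S ∧
      (QuotientGroup.mk (A (rep (QuotientGroup.mk (A ξ)))) : (AdjoinRoot f)ˣ ⧸ (powMonoidHom 2 :
        (AdjoinRoot f)ˣ →* (AdjoinRoot f)ˣ).range) = QuotientGroup.mk (A ξ) := by
    intro ξ hξ
    have h : ∃ ξ' ∈ ClS S, (QuotientGroup.mk (A ξ') : (AdjoinRoot f)ˣ ⧸ (powMonoidHom 2 :
        (AdjoinRoot f)ˣ →* (AdjoinRoot f)ˣ).range) = QuotientGroup.mk (A ξ) := ⟨ξ, hξ, rfl⟩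
    have h1 : rep (QuotientGroup.mk (A ξ)) = h.choose := dif_pos h
    rw [h1]
    exact h.choose_spec
  -- the injection
  let F : ((AdjoinRoot (fL L f))ˣ ⧸ (powMonoidHom 2 : (AdjoinRoot (fL L f))ˣ →*
        (AdjoinRoot (fL L f))ˣ).range) →
      ((AdjoinRoot f)ˣ ⧸ (powMonoidHom 2 : (AdjoinRoot f)ˣ →* (AdjoinRoot f)ˣ).range) ×
      ((AdjoinRoot f)ˣ ⧸ (powMonoidHom 2 : (AdjoinRoot f)ˣ →* (AdjoinRoot f)ˣ).range) :=
    fun ξ => (QuotientGroup.mk (A ξ), QuotientGroup.mk (B ξ (rep (QuotientGroup.mk (A ξ)))))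
  have hFm : ∀ ξ ∈ ClS S, F ξ ∈ M ×ˢ M := by
    intro ξ hξ
    obtain ⟨h1, h2'⟩ := hrep ξ hξ
    exact ⟨⟨A ξ, rfl, hA1 ξ hξ⟩, ⟨B ξ _, rfl, hB1 ξ hξ _ h1 h2'.symm⟩⟩
  have hFi : Set.InjOn F (ClS S) := by
    intro ξ hξ ξ' hξ' h
    obtain ⟨h1, h1'⟩ := hrep ξ hξ
    obtain ⟨h2', h2''⟩ := hrep ξ' hξ'
    have e1 : (QuotientGroup.mk (A ξ) : (AdjoinRoot f)ˣ ⧸ (powMonoidHom 2 :
        (AdjoinRoot f)ˣ →* (AdjoinRoot f)ˣ).range) = QuotientGroup.mk (A ξ') :=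
      congrArg Prod.fst h
    have e2 : (QuotientGroup.mk (B ξ (rep (QuotientGroup.mk (A ξ)))) :
        (AdjoinRoot f)ˣ ⧸ (powMonoidHom 2 : (AdjoinRoot f)ˣ →* (AdjoinRoot f)ˣ).range) =
        QuotientGroup.mk (B ξ' (rep (QuotientGroup.mk (A ξ')))) := congrArg Prod.snd h
    rw [← e1] at e2 h2' h2''
    set ρ := rep (QuotientGroup.mk (A ξ)) with hρ
    obtain ⟨k, hk⟩ := cl_eq.1 e2
    obtain ⟨g, hg⟩ := hB2 ξ hξ ρ h1 h1'.symm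
    obtain ⟨g', hg'⟩ := hB2 ξ' hξ' ρ h2' (by rw [← e1]; exact h1'.symm)
    rw [← hU1 ξ hξ, ← hU1 ξ' hξ', cl_eq]
    have h5 : U ξ' * U ρ * g' ^ 2 = U ξ * U ρ * g ^ 2 * (ι k) ^ 2 := by
      rw [← hg', hk, map_mul, map_pow, hg]
    exact ⟨g * ι k * g'⁻¹, cg2 _ _ _ _ _ _ h5⟩
  have hMf : (M ×ˢ M).Finite := hK.prod hK
  refine ⟨Set.Finite.of_finite_image (hMf.subset (Set.image_subset_iff.2 hFm)) hFi, ?_⟩
  have h7 := Set.ncard_le_ncard_of_injOn F hFm hFi hMf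
  rw [Set.ncard_prod, ← pow_two] at h7
  exact h7

end Pool.RZT
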